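import Pool.Agent.U299.LPM.Fwd

/-!
# Matroids with the property `Phi` are lattice path matroids
-/

set_option autoImplicit false

namespace Pool.Agent.U299.LPM

open Set

universe u

variable {α : Type u} {M : Matroid α} {s : ℕ → α} {A B I F K L X Y Z : Set α}
  {n i j k a b u v : ℕ}

theorem ncard_le_of_isBasis (hJ : M.IsBasis B F) (hI : M.Indep I) (hIF : I ⊆ F) (hF : F.Finite) :
    I.ncard ≤ B.ncard := by
  have h1 : I.encard ≤ B.encard := by
    rw [hJ.encard_eq_eRk]
    exact hI.encard_le_eRk_of_subset hIF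
  have hB : B.Finite := hF.subset hJ.subset
  rw [← (hF.subset hIF).cast_ncard_eq, ← hB.cast_ncard_eq] at h1
  exact_mod_cast h1

/-- A base which is a basis of every initial segment. -/
theorem exists_greedy (hs : s '' Iio n = M.E) :
    ∃ X, M.IsBase X ∧ ∀ i ≤ n, M.IsBasis (X ∩ s '' Iio i) (s '' Iio i) := by
  have key : ∀ i ≤ n, ∃ I, M.IsBasis I (s '' Iio i) ∧
      ∀ j ≤ i, M.IsBasis (I ∩ s '' Iio j) (s '' Iio j) := by
    intro i
    induction i with
    | zero =>
      intro _
      have h0 : s '' Iio 0 = ∅ := by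
        have : (Iio 0 : Set ℕ) = ∅ := by ext; simp
        rw [this, image_empty]
      refine ⟨∅, by rw [h0]; exact M.empty_indep.isBasis_self, fun j hj => ?_⟩
      have hj0 : j = 0 := by omega
      subst hj0
      rw [h0, inter_empty]
      exact M.empty_indep.isBasis_self
    | succ i ih =>
      intro hi
      obtain ⟨I, hI, hI'⟩ := ih (by omega)
      have hmono : ∀ {a b : ℕ}, a ≤ b → s '' Iio a ⊆ s '' Iio b := fun h =>
        image_mono (Iio_subset_Iio h)
      have hE : s '' Iio (i + 1) ⊆ M.E := by rw [← hs]; exact hmono hi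
      obtain ⟨J, hJ, hIJ⟩ := hI.indep.subset_isBasis_of_subset
        (hI.subset.trans (hmono (Nat.le_succ i))) hE
      have h1 : J ∩ s '' Iio i = I :=
        (hI.eq_of_subset_indep (hJ.indep.subset inter_subset_left) (subset_inter hIJ hI.subset)
          inter_subset_right).symm
      refine ⟨J, hJ, fun j hj => ?_⟩
      rcases Nat.lt_or_ge i j with hij | hij
      · have : j = i + 1 := by omega
        rw [this, inter_eq_left.2 hJ.subset]
        exact hJ
      · have h2 : J ∩ s '' Iio j = I ∩ s '' Iio j := by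
          rw [← h1, inter_assoc, inter_eq_right.2 (hmono hij)]
        rw [h2]
        exact hI' j hij
  obtain ⟨X, hX, hX'⟩ := key n le_rfl
  rw [hs, Matroid.isBasis_ground_iff] at hX
  exact ⟨X, hX, hX'⟩

theorem Iio_eq_Ico (i : ℕ) : (Iio i : Set ℕ) = Ico 0 i := by ext; simp

theorem ncard_inter_Iio (inj : InjOn s (Iio n)) (hi : i ≤ n) :
    (B ∩ s '' Iio i).ncard = ht s B i := by
  have := ncard_inter_seg (B := B) inj (Nat.zero_le i) hi
  rw [ht_zero, add_zero] at this
  rw [Iio_eq_Ico, this]

/-- Every matroid whose exchanges are controlled by a chain of sets, all of which are initial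
segments, has the structure `LP`. -/
theorem lp_of_segments (hinj : InjOn s (Iio n)) (hs : s '' Iio n = M.E)
    (hb : ∀ A, M.IsBase A → ∀ a < n, ∀ b < n, s a ∈ A → s b ∉ A →
      ¬ M.IsBase ((A \ {s a}) ∪ {s b}) → ∃ j ≤ n,
        (b < j ∧ j ≤ a ∧ M.IsBasis (A ∩ s '' Iio j) (s '' Iio j)) ∨
        (a < j ∧ j ≤ b ∧ M.IsBasis (A ∩ s '' Ico j n) (s '' Ico j n))) :
    ∃ X Y, LP M n s X Y := by
  classical
  obtain ⟨X, hX, hX'⟩ := exists_greedy hs
  have hrs : rv n s '' Iio n = M.E := by
    rw [Iio_eq_Ico, rv_seg le_rfl, Nat.sub_self, Nat.sub_zero, ← Iio_eq_Ico, hs]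
  obtain ⟨Y, hY, hY'⟩ := exists_greedy hrs
  have hY'' : ∀ i ≤ n, M.IsBasis (Y ∩ s '' Ico i n) (s '' Ico i n) := by
    intro i hi
    have := hY' (n - i) (by omega)
    rw [Iio_eq_Ico, rv_seg (by omega), Nat.sub_zero, show n - (n - i) = i by omega] at this
    exact this
  have hfin : ∀ t : Set ℕ, t ⊆ Iio n → (s '' t).Finite := fun t ht =>
    ((finite_Iio n).subset ht).image s
  have hIio : ∀ i ≤ n, (Iio i : Set ℕ) ⊆ Iio n := fun i hi => Iio_subset_Iio hi
  have hIco : ∀ i, (Ico i n : Set ℕ) ⊆ Iio n := fun i k hk => hk.2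
  -- heights of independent sets
  have hup : ∀ B, M.Indep B → ∀ i ≤ n, ht s B i ≤ ht s X i := by
    intro B hB i hi
    rw [← ncard_inter_Iio hinj hi, ← ncard_inter_Iio hinj hi]
    exact ncard_le_of_isBasis (hX' i hi) (hB.subset inter_subset_left) inter_subset_right
      (hfin _ (hIio i hi))
  have hcardn : ∀ B, M.IsBase B → ht s B n = ht s Y n := by
    intro B hB
    have e1 : ∀ B ⊆ M.E, B.ncard = ht s B n := fun B hB => ncard_eq_ht hinj (by rw [hs]; exact hB)
    rw [← e1 B hB.subset_ground, ← e1 Y hY.subset_ground]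
    unfold Set.ncard
    rw [hB.encard_eq_encard_of_isBase hY]
  have hdown : ∀ B, M.Indep B → ∀ i ≤ n, ht s B n + ht s Y i ≤ ht s Y n + ht s B i := by
    intro B hB i hi
    have e1 := ncard_inter_seg (B := B) hinj hi le_rfl
    have e2 := ncard_inter_seg (B := Y) hinj hi le_rfl
    have e3 := ncard_le_of_isBasis (hY'' i hi) (hB.subset (inter_subset_left (t := s '' Ico i n)))
      inter_subset_right (hfin _ (hIco i))
    omega
  have hbase : ∀ B, M.IsBase B → ∀ i ≤ n, ht s Y i ≤ ht s B i ∧ ht s B i ≤ ht s X i := by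
    intro B hB i hi
    have e1 := hdown B hB.indep i hi
    have e2 := hcardn B hB
    exact ⟨by omega, hup B hB.indep i hi⟩
  refine ⟨X, Y, ⟨hinj, hs, hX, hY, fun B hBE => ⟨fun hB => ⟨hcardn B hB, hbase B hB⟩, ?_⟩⟩⟩
  rintro ⟨hBn, hBh⟩
  have hBfin : B.Finite := (hfin _ Subset.rfl).subset (by rw [hs]; exact hBE)
  -- the exchange argument
  have key : ∀ d, ∀ A, M.IsBase A → (A \ B).ncard = d → M.IsBase B := by
    intro d
    induction d using Nat.strong_induction_on with
    | _ d ih =>
      intro A hA hd
      have hAfin : A.Finite := (hfin _ Subset.rfl).subset (by rw [hs]; exact hA.subset_ground)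
      by_cases hall : ∀ i ≤ n, ht s A i = ht s B i
      · have : A = B := by
          apply Subset.antisymm
          · intro x hx
            obtain ⟨k, hk, rfl⟩ : x ∈ s '' Iio n := by rw [hs]; exact hA.subset_ground hx
            exact (mem_iff_of_ht hk hall).1 hx
          · intro x hx
            obtain ⟨k, hk, rfl⟩ : x ∈ s '' Iio n := by rw [hs]; exact hBE hx
            exact (mem_iff_of_ht hk hall).2 hx
        rw [← this]
        exact hA
      · push Not at hall
        obtain ⟨i, hin, hi⟩ := hall
        -- common step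
        have step : ∀ a < n, ∀ b < n, s a ∈ A → s a ∉ B → s b ∈ B → s b ∉ A →
            M.IsBase ((A \ {s a}) ∪ {s b}) → M.IsBase B := by
          intro a _ b _ haA haB hbB hbA hA'
          refine ih _ ?_ _ hA' rfl
          rw [← hd]
          refine ncard_lt_ncard ?_ (hAfin.subset sdiff_subset)
          refine ⟨?_, fun h' => ?_⟩
          · rintro x ⟨hx | hx, hxB⟩
            · exact ⟨hx.1, hxB⟩
            · rw [mem_singleton_iff] at hx
              exact absurd (hx ▸ hbB) hxB
          · rcases (h' ⟨haA, haB⟩).1 with h3 | h3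
            · exact h3.2 rfl
            · rw [mem_singleton_iff] at h3
              exact hbA (h3 ▸ haA)
        rcases lt_or_gt_of_ne hi with hlt | hgt
        · -- `ht A i < ht B i`
          have h0 := Nat.findGreatest_spec (P := fun k => ht s B k ≤ ht s A k) (Nat.zero_le i)
            (by simp)
          have h0' := fun k (h1 : Nat.findGreatest (fun k => ht s B k ≤ ht s A k) i < k)
            (h2 : k ≤ i) => Nat.findGreatest_is_greatest (P := fun k => ht s B k ≤ ht s A k) h1 h2
          have h0'' := Nat.findGreatest_le (P := fun k => ht s B k ≤ ht s A k) i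
          set u := Nat.findGreatest (fun k => ht s B k ≤ ht s A k) i with hu
          have hui : u ≠ i := by
            intro h'
            rw [h'] at h0
            omega
          have hex : ∃ k, i < k ∧ ht s B k ≤ ht s A k := by
            refine ⟨n, ?_, by rw [hBn, hcardn A hA]⟩
            rcases Nat.lt_or_ge i n with h' | h'
            · exact h'
            · have : i = n := by omega
              rw [this, hBn, hcardn A hA] at hlt
              omega
          obtain ⟨hv1, hv2⟩ := Nat.find_spec hex
          have hv3 := fun k (hk : k < Nat.find hex) => Nat.find_min hex hk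
          have hvn : Nat.find hex ≤ n := Nat.find_min' hex ⟨by
            rcases Nat.lt_or_ge i n with h' | h'
            · exact h'
            · have : i = n := by omega
              rw [this, hBn, hcardn A hA] at hlt
              omega, by rw [hBn, hcardn A hA]⟩
          set v := Nat.find hex with hv
          have hbet : ∀ k, u < k → k < v → ht s A k < ht s B k := by
            intro k h1 h2
            rcases Nat.lt_or_ge i k with h3 | h3
            · have := hv3 k h2
              push Not at this
              exact this h3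
            · have := h0' k h1 h3
              omega
          have e1 := hbet (u + 1) (by omega) (by omega)
          have huB : s u ∈ B := by
            by_contra hcon
            have := ht_succ_notMem hcon
            have := ht_le_succ s A u
            omega
          have huA : s u ∉ A := by
            intro hcon
            have := ht_succ_mem hcon
            have := ht_succ_le s B u
            omega
          have e2 := hbet (v - 1) (by omega) (by omega)
          have hvA : s (v - 1) ∈ A := by
            by_contra hcon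
            have := ht_succ_notMem hcon
            have := ht_le_succ s B (v - 1)
            rw [show v - 1 + 1 = v by omega] at *
            omega
          have hvB : s (v - 1) ∉ B := by
            intro hcon
            have := ht_succ_mem hcon
            have := ht_succ_le s A (v - 1)
            rw [show v - 1 + 1 = v by omega] at *
            omega
          refine step (v - 1) (by omega) u (by omega) hvA hvB huB huA ?_
          by_contra hcon
          obtain ⟨j, hjn, hj⟩ := hb A hA (v - 1) (by omega) u (by omega) hvA huA hcon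
          rcases hj with ⟨hj1, hj2, hj3⟩ | ⟨hj1, hj2, -⟩
          · have e3 := ncard_le_of_isBasis hj3 (hX.indep.subset (inter_subset_left (t := s '' Iio j)))
              inter_subset_right (hfin _ (hIio j hjn))
            rw [ncard_inter_Iio hinj hjn, ncard_inter_Iio hinj hjn] at e3
            have e4 := hbet j hj1 (by omega)
            have e5 := (hBh j hjn).2
            omega
          · omega
        · -- `ht B i < ht A i`
          have h0 := Nat.findGreatest_spec (P := fun k => ht s A k ≤ ht s B k) (Nat.zero_le i)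
            (by simp)
          have h0' := fun k (h1 : Nat.findGreatest (fun k => ht s A k ≤ ht s B k) i < k)
            (h2 : k ≤ i) => Nat.findGreatest_is_greatest (P := fun k => ht s A k ≤ ht s B k) h1 h2
          have h0'' := Nat.findGreatest_le (P := fun k => ht s A k ≤ ht s B k) i
          set u := Nat.findGreatest (fun k => ht s A k ≤ ht s B k) i with hu
          have hui : u ≠ i := by
            intro h'
            rw [h'] at h0
            omega
          have hin' : i < n := by
            rcases Nat.lt_or_ge i n with h' | h'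
            · exact h'
            · have : i = n := by omega
              rw [this, hBn, hcardn A hA] at hgt
              omega
          have hex : ∃ k, i < k ∧ ht s A k ≤ ht s B k :=
            ⟨n, hin', by rw [hBn, hcardn A hA]⟩
          obtain ⟨hv1, hv2⟩ := Nat.find_spec hex
          have hv3 := fun k (hk : k < Nat.find hex) => Nat.find_min hex hk
          have hvn : Nat.find hex ≤ n := Nat.find_min' hex ⟨hin', by rw [hBn, hcardn A hA]⟩
          set v := Nat.find hex with hv
          have hbet : ∀ k, u < k → k < v → ht s B k < ht s A k := by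
            intro k h1 h2
            rcases Nat.lt_or_ge i k with h3 | h3
            · have := hv3 k h2
              push Not at this
              exact this h3
            · have := h0' k h1 h3
              omega
          have e1 := hbet (u + 1) (by omega) (by omega)
          have huA : s u ∈ A := by
            by_contra hcon
            have := ht_succ_notMem hcon
            have := ht_le_succ s B u
            omega
          have huB : s u ∉ B := by
            intro hcon
            have := ht_succ_mem hcon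
            have := ht_succ_le s A u
            omega
          have e2 := hbet (v - 1) (by omega) (by omega)
          have hvB : s (v - 1) ∈ B := by
            by_contra hcon
            have := ht_succ_notMem hcon
            have := ht_le_succ s A (v - 1)
            rw [show v - 1 + 1 = v by omega] at *
            omega
          have hvA : s (v - 1) ∉ A := by
            intro hcon
            have := ht_succ_mem hcon
            have := ht_succ_le s B (v - 1)
            rw [show v - 1 + 1 = v by omega] at *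
            omega
          refine step u (by omega) (v - 1) (by omega) huA huB hvB hvA ?_
          by_contra hcon
          obtain ⟨j, hjn, hj⟩ := hb A hA u (by omega) (v - 1) (by omega) huA hvA hcon
          rcases hj with ⟨hj1, hj2, -⟩ | ⟨hj1, hj2, hj3⟩
          · omega
          · have e3 := ncard_le_of_isBasis hj3 (hY.indep.subset (inter_subset_left (t := s '' Ico j n)))
              inter_subset_right (hfin _ (hIco j))
            have e4 := hbet j hj1 (by omega)
            have e5 := (hBh j hjn).1
            have e6 := ncard_inter_seg (B := A) hinj hjn le_rfl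
            have e7 := ncard_inter_seg (B := Y) hinj hjn le_rfl
            have e8 := hcardn A hA
            omega
  exact key _ X hX rfl

/-- A numbering such that all members of a chain of sets are initial segments. -/
theorem exists_numbering [M.Finite] (hne : M.E.Nonempty) (C : Set (Set α))
    (hC : ∀ D ∈ C, ∀ D' ∈ C, D ⊆ D' ∨ D' ⊆ D) (hCE : ∀ D ∈ C, D ⊆ M.E) :
    ∃ (n : ℕ) (s : ℕ → α), InjOn s (Iio n) ∧ s '' Iio n = M.E ∧
      ∀ D ∈ C, ∃ j ≤ n, D = s '' Iio j := by
  classical
  obtain ⟨a0, -⟩ := hne
  have hCfin : C.Finite := (M.ground_finite.finite_subsets).subset fun D hD => hCE D hD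
  let ρ : α → ℕ := fun e => {D ∈ C | e ∉ D}.ncard
  have hρ : ∀ D ∈ C, ∀ e ∈ D, ∀ e' ∉ D, ρ e < ρ e' := by
    intro D hD e he e' he'
    refine ncard_lt_ncard ⟨?_, fun h' => ?_⟩ (hCfin.subset (sep_subset _ _))
    · rintro D' ⟨hD', heD'⟩
      refine ⟨hD', fun he'D' => ?_⟩
      rcases hC D hD D' hD' with h | h
      · exact heD' (h he)
      · exact he' (h he'D')
    · exact (h' (show D ∈ {D ∈ C | e' ∉ D} from ⟨hD, he'⟩)).2 he
  have : Fintype M.E := M.ground_finite.fintype
  let n := Fintype.card M.E
  let e0 : Fin n ≃ M.E := (Fintype.equivFin M.E).symm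
  let f : Fin n → ℕ := fun i => ρ (e0 i)
  let τ := Tuple.sort f
  have hmono : Monotone (f ∘ τ) := Tuple.monotone_sort f
  let s : ℕ → α := fun i => if h : i < n then (e0 (τ ⟨i, h⟩) : α) else a0
  have hs : ∀ i (h : i < n), s i = e0 (τ ⟨i, h⟩) := fun i h => dif_pos h
  have hinj : InjOn s (Iio n) := by
    intro i hi j hj hij
    rw [hs i hi, hs j hj] at hij
    have := τ.injective (e0.injective (Subtype.ext hij))
    simpa using this
  have himg : s '' Iio n = M.E := by
    ext x
    constructor
    · rintro ⟨i, hi, rfl⟩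
      rw [hs i hi]
      exact (e0 (τ ⟨i, hi⟩)).2
    · intro hx
      let i := τ.symm (e0.symm ⟨x, hx⟩)
      refine ⟨i, i.2, ?_⟩
      rw [hs i i.2]
      simp [i]
  refine ⟨n, s, hinj, himg, fun D hD => ?_⟩
  have hdown : ∀ i j, i < j → j < n → s j ∈ D → s i ∈ D := by
    intro i j hij hj hjD
    by_contra hiD
    have h1 := hρ D hD (s j) hjD (s i) hiD
    rw [hs i (by omega), hs j hj] at h1
    have h2 := hmono (show (⟨i, by omega⟩ : Fin n) ≤ ⟨j, hj⟩ from hij.le)
    change ρ (e0 (τ ⟨i, _⟩)) ≤ ρ (e0 (τ ⟨j, _⟩)) at h2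
    omega
  have hex : ∃ j, j = n ∨ s j ∉ D := ⟨n, Or.inl rfl⟩
  have hj1 := Nat.find_spec hex
  have hj2 : Nat.find hex ≤ n := Nat.find_min' hex (Or.inl rfl)
  have hj3 := fun k (hk : k < Nat.find hex) => Nat.find_min hex hk
  refine ⟨Nat.find hex, hj2, Subset.antisymm ?_ ?_⟩
  · intro x hx
    have hxE := hCE D hD hx
    rw [← himg] at hxE
    obtain ⟨k, hk, rfl⟩ := hxE
    have hk : k < n := hk
    refine ⟨k, ?_, rfl⟩
    by_contra hcon
    have hcon : Nat.find hex ≤ k := not_lt.1 hcon
    rcases hj1 with h | h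
    · omega
    · rcases Nat.lt_or_ge (Nat.find hex) k with h' | h'
      · exact h (hdown _ _ h' hk hx)
      · have : Nat.find hex = k := by omega
        rw [this] at h
        exact h hx
  · rintro x ⟨k, hk, rfl⟩
    have := hj3 k hk
    push Not at this
    exact this.2

theorem lp_of_chain [M.Finite] (hne : M.E.Nonempty) (C : Set (Set α))
    (hC : ∀ D ∈ C, ∀ D' ∈ C, D ⊆ D' ∨ D' ⊆ D) (hCE : ∀ D ∈ C, D ⊆ M.E)
    (hb : ∀ A, M.IsBase A → ∀ x ∈ A, ∀ y ∈ M.E, y ∉ A → ¬ M.IsBase ((A \ {x}) ∪ {y}) →
      ∃ D ∈ C, (y ∈ D ∧ x ∉ D ∧ M.IsBasis (A ∩ D) D) ∨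
        (x ∈ D ∧ y ∉ D ∧ M.IsBasis (A ∩ (M.E \ D)) (M.E \ D))) :
    ∃ n s X Y, LP M n s X Y := by
  obtain ⟨n, s, hinj, hs, hseg⟩ := exists_numbering hne C hC hCE
  refine ⟨n, s, lp_of_segments hinj hs ?_⟩
  intro A hA a ha b hb' haA hbA hnot
  have hbE : s b ∈ M.E := by rw [← hs]; exact ⟨b, hb', rfl⟩
  obtain ⟨D, hD, h⟩ := hb A hA (s a) haA (s b) hbE hbA hnot
  obtain ⟨j, hj, rfl⟩ := hseg D hD
  have hmem : ∀ k < n, (s k ∈ s '' Iio j ↔ k < j) := by
    intro k hk
    rw [Iio_eq_Ico, mem_seg hinj hk hj]
    simp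
  refine ⟨j, hj, ?_⟩
  rcases h with ⟨h1, h2, h3⟩ | ⟨h1, h2, h3⟩
  · left
    rw [hmem b hb'] at h1
    rw [hmem a ha] at h2
    exact ⟨h1, by omega, h3⟩
  · right
    rw [hmem a ha] at h1
    rw [hmem b hb'] at h2
    refine ⟨h1, by omega, ?_⟩
    have : M.E \ s '' Iio j = s '' Ico j n := by
      rw [← hs]
      ext x
      constructor
      · rintro ⟨⟨k, hk, rfl⟩, h'⟩
        rw [hmem k hk] at h'
        exact ⟨k, ⟨by omega, hk⟩, rfl⟩
      · rintro ⟨k, ⟨hk1, hk2⟩, rfl⟩
        refine ⟨⟨k, hk2, rfl⟩, ?_⟩
        rw [hmem k hk2]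
        omega
    rw [← this]
    exact h3

/-! ### Components -/

theorem Comp.eq_of_mem (hKE : K ⊆ M.E) (hLE : L ⊆ M.E) (hK : Comp M K) (hL : Comp M L) {x : α}
    (hxK : x ∈ K) (hxL : x ∈ L) : K = L := by
  have hs := hK.1.inter hL.1
  have hne : K ∩ L ≠ ∅ := fun h => by
    have : x ∈ K ∩ L := ⟨hxK, hxL⟩
    rw [h] at this
    exact this
  apply Subset.antisymm
  · rcases hK.2.2 (K ∩ L) (inter_subset_left.trans hKE) inter_subset_left hs with h | h
    · exact absurd h hne
    · exact h.trans inter_subset_right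
  · rcases hL.2.2 (K ∩ L) (inter_subset_left.trans hKE) inter_subset_right hs with h | h
    · exact absurd h hne
    · exact h.trans inter_subset_left

theorem sep_ground : Sep M M.E := by
  intro I hI h1 _
  rwa [inter_eq_left.2 hI] at h1

theorem exists_comp [M.Finite] (e : α) (he : e ∈ M.E) : ∃ K ⊆ M.E, Comp M K ∧ e ∈ K := by
  classical
  have hex : ∃ d, ∃ K ⊆ M.E, Sep M K ∧ e ∈ K ∧ K.ncard = d :=
    ⟨_, M.E, Subset.rfl, sep_ground, he, rfl⟩
  obtain ⟨K, hKE, hKs, heK, hKd⟩ := Nat.find_spec hex
  have hmin : ∀ L ⊆ M.E, Sep M L → e ∈ L → K.ncard ≤ L.ncard := by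
    intro L hLE hL heL
    rw [hKd]
    exact Nat.find_min' hex ⟨L, hLE, hL, heL, rfl⟩
  have hKfin : K.Finite := M.ground_finite.subset hKE
  refine ⟨K, hKE, ⟨hKs, ?_, ?_⟩, heK⟩
  · intro h
    rw [h] at heK
    exact heK
  · intro L hLE hLK hL
    by_cases heL : e ∈ L
    · right
      exact (eq_of_subset_of_ncard_le hLK (hmin L hLE hL heL) hKfin).ge
    · left
      have h1 := hmin (K ∩ (M.E \ L)) (inter_subset_left.trans hKE) (hKs.inter hL.compl)
        ⟨heK, he, heL⟩
      have h2 := eq_of_subset_of_ncard_le inter_subset_left h1 hKfin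
      rw [eq_empty_iff_forall_notMem]
      intro x hx
      have : x ∈ K ∩ (M.E \ L) := by rw [h2]; exact hLK hx
      exact this.2.2 hx

theorem isBasis_inter_of_sep (hK : Sep M K) (hKE : K ⊆ M.E) (hA : M.IsBase A) :
    M.IsBasis (A ∩ K) K := by
  refine (hA.indep.subset inter_subset_left).isBasis_of_forall_insert inter_subset_right ?_
  rintro z ⟨hzK, hzA⟩
  rw [← Matroid.not_indep_iff (insert_subset (hKE hzK) (inter_subset_left.trans hA.subset_ground))]
  intro hcon
  have hzA' : z ∉ A := fun h => hzA ⟨h, hzK⟩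
  have : M.Indep (insert z A) := by
    refine hK _ (insert_subset (hKE hzK) hA.subset_ground) ?_ ?_
    · refine hcon.subset ?_
      rintro x ⟨hx | hx, hxK⟩
      · exact Or.inl hx
      · exact Or.inr ⟨hx, hxK⟩
    · refine hA.indep.subset ?_
      rintro x ⟨hx | hx, hxK⟩
      · rw [hx] at hxK
        exact absurd hzK hxK
      · exact hx
  have := hA.eq_of_subset_indep this (subset_insert z A)
  exact hzA' (this ▸ mem_insert z A)

theorem isBasis_union (hA : M.IsBase A) {D : Set α} (hDE : D ⊆ M.E)
    (h : ∀ z ∈ D, z ∉ A → ∃ F ⊆ D, z ∈ F ∧ M.IsBasis (A ∩ F) F) : M.IsBasis (A ∩ D) D := by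
  refine (hA.indep.subset inter_subset_left).isBasis_of_forall_insert inter_subset_right ?_
  rintro z ⟨hzD, hzA⟩
  have hzA' : z ∉ A := fun h => hzA ⟨h, hzD⟩
  obtain ⟨F, hFD, hzF, hF⟩ := h z hzD hzA'
  have h1 := hF.insert_dep (e := z) ⟨hzF, fun h => hzA' h.1⟩
  exact h1.superset (insert_subset_insert (inter_subset_inter_right A hFD))
    (insert_subset (hDE hzD) (inter_subset_left.trans hA.subset_ground))

theorem lp_of_phi [M.Finite] (hne : M.E.Nonempty) (h : Phi M) : ∃ n s X Y, LP M n s X Y := by
  classical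
  choose! κ hκE hκ hκmem using (exists_comp : ∀ e ∈ M.E, ∃ K ⊆ M.E, Comp M K ∧ e ∈ K)
  choose! X hXE Y hYE hL using h
  have hκeq : ∀ e ∈ M.E, ∀ x ∈ κ e, κ x = κ e := fun e he x hx =>
    (hκ x (hκE e he hx)).eq_of_mem (hκE _ (hκE e he hx)) (hκE e he) (hκ e he)
      (hκmem x (hκE e he hx)) hx
  -- numbering of the components
  obtain ⟨f, hf⟩ : ∃ f : α → ℕ, InjOn f M.E := by
    have : Fintype M.E := M.ground_finite.fintype
    refine ⟨fun x => if hx : x ∈ M.E then (Fintype.equivFin M.E ⟨x, hx⟩ : ℕ) else 0, ?_⟩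
    intro x hx y hy hxy
    simp only [hx, hy, dif_pos] at hxy
    have := (Fintype.equivFin M.E).injective (Fin.ext hxy)
    exact congrArg Subtype.val this
  let c : α → ℕ := fun e => sInf (f '' κ e)
  have hc1 : ∀ e ∈ M.E, ∀ x ∈ κ e, c x = c e := fun e he x hx => by
    change sInf (f '' κ x) = sInf (f '' κ e)
    rw [hκeq e he x hx]
  have hc2 : ∀ e ∈ M.E, ∀ x ∈ M.E, c x = c e → x ∈ κ e := by
    intro e he x hx hxe
    obtain ⟨y, hy, hy'⟩ : sInf (f '' κ e) ∈ f '' κ e := Nat.sInf_mem ⟨_, ⟨e, hκmem e he, rfl⟩⟩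
    obtain ⟨z, hz, hz'⟩ : sInf (f '' κ x) ∈ f '' κ x := Nat.sInf_mem ⟨_, ⟨x, hκmem x hx, rfl⟩⟩
    have hyz : y = z := hf (hκE e he hy) (hκE x hx hz) (hy'.trans (hxe.symm.trans hz'.symm))
    have h1 := hκeq e he y hy
    have h2 := hκeq x hx z hz
    rw [← hyz] at h2
    rw [← h1, h2]
    exact hκmem x hx
  let Loc : Set α → Set α → Prop := fun K F => F ⊆ K ∧ (F = ∅ ∨ F = K ∨ Good M K (X K) F ∨
    Good M K (Y K) (K \ F))
  have hLoc : ∀ e ∈ M.E, ∀ F F', Loc (κ e) F → Loc (κ e) F' → F ⊆ F' ∨ F' ⊆ F := by
    intro e he F F' hF hF'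
    obtain ⟨hFK, hF⟩ := hF
    obtain ⟨hFK', hF'⟩ := hF'
    obtain ⟨l1, l2, l3, -⟩ := hL (κ e) (hκE e he) (hκ e he)
    have hE : ∀ F ⊆ κ e, F ⊆ M.E := fun F hF => hF.trans (hκE e he)
    rcases hF with rfl | rfl | hF | hF
    · exact Or.inl (empty_subset _)
    · exact Or.inr hFK'
    · rcases hF' with rfl | rfl | hF' | hF'
      · exact Or.inr (empty_subset _)
      · exact Or.inl hFK
      · exact l1 F (hE F hFK) F' (hE F' hFK') hF hF'
      · rcases l3 F (hE F hFK) _ (hE _ sdiff_subset) hF hF' with h | h
        · rw [sdiff_sdiff_cancel_left hFK'] at h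
          exact Or.inl h
        · right
          intro x hx
          rcases h (hFK' hx) with h' | h'
          · exact h'
          · exact absurd hx h'.2
    · rcases hF' with rfl | rfl | hF' | hF'
      · exact Or.inr (empty_subset _)
      · exact Or.inl hFK
      · rcases l3 F' (hE F' hFK') _ (hE _ sdiff_subset) hF' hF with h | h
        · rw [sdiff_sdiff_cancel_left hFK] at h
          exact Or.inr h
        · left
          intro x hx
          rcases h (hFK hx) with h' | h'
          · exact h'
          · exact absurd hx h'.2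
      · rcases l2 _ (hE _ sdiff_subset) _ (hE _ sdiff_subset) hF hF' with h | h
        · right
          intro x hx
          by_contra hcon
          exact (h ⟨hFK' hx, hcon⟩).2 hx
        · left
          intro x hx
          by_contra hcon
          exact (h ⟨hFK hx, hcon⟩).2 hx
  let C : Set (Set α) := {D | ∃ e ∈ M.E, ∃ F, Loc (κ e) F ∧ D = {x ∈ M.E | c x < c e} ∪ F}
  refine lp_of_chain hne C ?_ ?_ ?_
  · rintro D ⟨e, he, F, hF, rfl⟩ D' ⟨e', he', F', hF', rfl⟩
    have hcF : ∀ x ∈ F, c x = c e := fun x hx => hc1 e he x (hF.1 hx)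
    have hcF' : ∀ x ∈ F', c x = c e' := fun x hx => hc1 e' he' x (hF'.1 hx)
    rcases lt_trichotomy (c e) (c e') with hlt | heq | hgt
    · left
      rintro x (hx | hx)
      · exact Or.inl ⟨hx.1, hx.2.trans hlt⟩
      · exact Or.inl ⟨hκE e he (hF.1 hx), by rw [hcF x hx]; exact hlt⟩
    · have hκ' : κ e' = κ e := hκeq e he e' (hc2 e he e' he' heq.symm)
      rw [hκ'] at hF'
      rw [heq]
      rcases hLoc e he F F' hF hF' with h' | h'
      · exact Or.inl (union_subset_union_right _ h')
      · exact Or.inr (union_subset_union_right _ h')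
    · right
      rintro x (hx | hx)
      · exact Or.inl ⟨hx.1, hx.2.trans hgt⟩
      · exact Or.inl ⟨hκE e' he' (hF'.1 hx), by rw [hcF' x hx]; exact hgt⟩
  · rintro D ⟨e, he, F, hF, rfl⟩
    exact union_subset (sep_subset _ _) (hF.1.trans (hκE e he))
  · intro A hA x hxA y hyE hyA hnot
    have hxE : x ∈ M.E := hA.subset_ground hxA
    set K := κ y with hK
    have hKE : K ⊆ M.E := hκE y hyE
    have hKsep : Sep M K := (hκ y hyE).1
    have hyK : y ∈ K := hκmem y hyE
    have hcomp : ∀ z ∈ M.E, M.IsBasis (A ∩ κ z) (κ z) := fun z hz =>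
      isBasis_inter_of_sep (hκ z hz).1 (hκE z hz) hA
    -- the lower and the upper part
    have hlow : ∀ F ⊆ K, M.IsBasis (A ∩ F) F →
        M.IsBasis (A ∩ ({x ∈ M.E | c x < c y} ∪ F)) ({x ∈ M.E | c x < c y} ∪ F) := by
      intro F hF hAF
      refine isBasis_union hA (union_subset (sep_subset _ _) (hF.trans hKE)) ?_
      rintro z (hz | hz) _
      · refine ⟨κ z, ?_, hκmem z hz.1, hcomp z hz.1⟩
        intro w hw
        exact Or.inl ⟨hκE z hz.1 hw, by rw [hc1 z hz.1 w hw]; exact hz.2⟩
      · exact ⟨F, subset_union_right, hz, hAF⟩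
    have hhigh : ∀ F ⊆ K, M.IsBasis (A ∩ F) F →
        M.IsBasis (A ∩ (M.E \ ({x ∈ M.E | c x < c y} ∪ (K \ F))))
          (M.E \ ({x ∈ M.E | c x < c y} ∪ (K \ F))) := by
      intro F hF hAF
      refine isBasis_union hA sdiff_subset ?_
      rintro z ⟨hzE, hz⟩ _
      by_cases hzK : z ∈ K
      · have hzF : z ∈ F := by
          by_contra hzF
          exact hz (Or.inr ⟨hzK, hzF⟩)
        refine ⟨F, ?_, hzF, hAF⟩
        intro w hw
        refine ⟨hKE (hF hw), ?_⟩
        rintro (h' | h')
        · have := hc1 y hyE w (hF hw)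
          have := h'.2
          omega
        · exact h'.2 hw
      · have hcz : c y < c z := by
          rcases lt_trichotomy (c z) (c y) with h' | h' | h'
          · exact absurd (Or.inl ⟨hzE, h'⟩) hz
          · exact absurd (hc2 y hyE z hzE h') hzK
          · exact h'
        refine ⟨κ z, ?_, hκmem z hzE, hcomp z hzE⟩
        intro w hw
        have hcw := hc1 z hzE w hw
        refine ⟨hκE z hzE hw, ?_⟩
        rintro (h' | h')
        · have := h'.2
          omega
        · have := hc1 y hyE w h'.1
          omega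
    by_cases hxK : x ∈ K
    · have hAK := hcomp y hyE
      have hdep : ¬ M.Indep (((A ∩ K) \ {x}) ∪ {y}) := by
        intro hcon
        refine hnot ?_
        have hI : M.Indep ((A \ {x}) ∪ {y}) := by
          refine hKsep _ (union_subset (sdiff_subset.trans hA.subset_ground)
            (singleton_subset_iff.2 hyE)) ?_ ?_
          · refine hcon.subset ?_
            rintro z ⟨hz | hz, hzK⟩
            · exact Or.inl ⟨⟨hz.1, hzK⟩, hz.2⟩
            · exact Or.inr hz
          · refine hA.indep.subset ?_
            rintro z ⟨hz | hz, hzK⟩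
            · exact hz.1
            · rw [mem_singleton_iff] at hz
              exact absurd (hz ▸ hyK) hzK
        rw [union_singleton] at hI ⊢
        exact hA.exchange_isBase_of_indep hyA hI
      obtain ⟨-, -, -, l4⟩ := hL K hKE (hκ y hyE)
      obtain ⟨F, hFE, hF, hAF, hyF, hxF⟩ := l4 (A ∩ K) (inter_subset_left.trans hA.subset_ground)
        ((bas_iff hKE).2 hAK) {x} (singleton_subset_iff.2 hxE) ⟨x, rfl⟩ {y}
        (singleton_subset_iff.2 hyE) ⟨y, rfl⟩ (singleton_subset_iff.2 ⟨hxA, hxK⟩)
        (singleton_subset_iff.2 ⟨hyK, fun h' => hyA h'.1⟩) hdep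
      rw [singleton_subset_iff] at hyF hxF
      have hFK : F ⊆ K := by
        rcases hF with hF | hF
        · exact hF.1
        · exact hF.1
      rw [bas_iff hFE, inter_assoc, inter_eq_right.2 hFK] at hAF
      have hcx := hc1 y hyE x hxK
      rcases hF with hF | hF
      · refine ⟨{x ∈ M.E | c x < c y} ∪ F, ⟨y, hyE, F, ⟨hFK, Or.inr (Or.inr (Or.inl hF))⟩, rfl⟩,
          Or.inl ⟨Or.inr hyF, ?_, hlow F hFK hAF⟩⟩
        rintro (h' | h')
        · have := h'.2
          omega
        · exact hxF.2 h'
      · refine ⟨{x ∈ M.E | c x < c y} ∪ (K \ F), ⟨y, hyE, K \ F, ⟨sdiff_subset,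
          Or.inr (Or.inr (Or.inr ?_))⟩, rfl⟩, Or.inr ⟨Or.inr hxF, ?_, hhigh F hFK hAF⟩⟩
        · rw [sdiff_sdiff_cancel_left hFK]
          exact hF
        · rintro (h' | h')
          · have := h'.2
            omega
          · exact h'.2 hyF
    · have hcne : c x ≠ c y := fun h' => hxK (hc2 y hyE x hxE h')
      rcases lt_or_gt_of_ne hcne with hlt | hgt
      · refine ⟨{x ∈ M.E | c x < c y} ∪ ∅, ⟨y, hyE, ∅, ⟨empty_subset _, Or.inl rfl⟩, rfl⟩,
          Or.inr ⟨Or.inl ⟨hxE, hlt⟩, ?_, ?_⟩⟩
        · rintro (h' | h')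
          · have := h'.2
            omega
          · exact h'
        · have := hhigh K Subset.rfl (hcomp y hyE)
          rw [sdiff_self] at this
          exact this
      · refine ⟨{x ∈ M.E | c x < c y} ∪ K, ⟨y, hyE, K, ⟨Subset.rfl, Or.inr (Or.inl rfl)⟩, rfl⟩,
          Or.inl ⟨Or.inr hyK, ?_, hlow K Subset.rfl (hcomp y hyE)⟩⟩
        rintro (h' | h')
        · have := h'.2
          omega
        · exact hxK h'

end Pool.Agent.U299.LPM
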