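import Mathlib

/-!
# The monadic second-order logic `MS₀` of matroids, and lattice path matroids
-/

set_option autoImplicit false

namespace Pool.Agent.U299.LPM

universe u

/-- `Formula n` is the type of formulas of `MS₀` whose free variables are among `n` set variables,
numbered by `Fin n`. The atomic formulas are `ind i` (the set `Xᵢ` is independent) and `sub i j`
(`Xᵢ ⊆ Xⱼ`). A quantifier `ex`, `all` applied to a formula with `n + 1` variables binds the variable
with number `0`, and the other variables `i + 1` are renumbered to `i`. A sentence is a formula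
without free variables, an element of `Formula 0`. -/
inductive Formula : ℕ → Type
  | ind {n : ℕ} (i : Fin n) : Formula n
  | sub {n : ℕ} (i j : Fin n) : Formula n
  | neg {n : ℕ} (φ : Formula n) : Formula n
  | and {n : ℕ} (φ ψ : Formula n) : Formula n
  | or {n : ℕ} (φ ψ : Formula n) : Formula n
  | imp {n : ℕ} (φ ψ : Formula n) : Formula n
  | ex {n : ℕ} (φ : Formula (n + 1)) : Formula n
  | all {n : ℕ} (φ : Formula (n + 1)) : Formula n

/-- `Sat M φ v` says that the formula `φ` holds in the matroid `M` if its free variables are
interpreted by the sets `v i`. The quantifiers range over the subsets of the ground set. -/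
def Sat {α : Type u} (M : Matroid α) : {n : ℕ} → Formula n → (Fin n → Set α) → Prop
  | _, .ind i, v => M.Indep (v i)
  | _, .sub i j, v => v i ⊆ v j
  | _, .neg φ, v => ¬ Sat M φ v
  | _, .and φ ψ, v => Sat M φ v ∧ Sat M ψ v
  | _, .or φ ψ, v => Sat M φ v ∨ Sat M ψ v
  | _, .imp φ ψ, v => Sat M φ v → Sat M ψ v
  | _, .ex φ, v => ∃ X : Set α, X ⊆ M.E ∧ Sat M φ (Fin.cons X v)
  | _, .all φ, v => ∀ X : Set α, X ⊆ M.E → Sat M φ (Fin.cons X v)

/-- A sentence holds in the matroid `M`. -/
def Models {α : Type u} (M : Matroid α) (φ : Formula 0) : Prop := Sat M φ Fin.elim0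

/-- The number of North steps among the first `i` steps of the lattice path `R`; a path with `n`
steps is a function `R : Fin n → Bool`, the `j`-th step is North if `R j = true` and East if
`R j = false`. -/
def height {n : ℕ} (R : Fin n → Bool) (i : ℕ) : ℕ :=
  (Finset.univ.filter fun j : Fin n => (j : ℕ) < i ∧ R j = true).card

/-- `R` is a lattice path from `(0, 0)` to `(m, r)`: it has `m + r` steps, `r` of them North. -/
def IsPath (m r : ℕ) (R : Fin (m + r) → Bool) : Prop := height R (m + r) = r

/-- The path `P` never goes above the path `Q`. -/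
def NeverAbove {n : ℕ} (P Q : Fin n → Bool) : Prop := ∀ i ≤ n, height P i ≤ height Q i

/-- `M` is a lattice path matroid: there are lattice paths `P`, `Q` from `(0, 0)` to `(m, r)`, with
`P` never going above `Q`, and a numbering `σ` of the ground set of `M` by the numbers of the steps,
such that the bases of `M` are the sets of the North steps of the lattice paths `R` from `(0, 0)` to
`(m, r)` between `P` and `Q`. -/
def IsLatticePathMatroid {α : Type u} (M : Matroid α) : Prop :=
  ∃ (m r : ℕ) (P Q : Fin (m + r) → Bool) (σ : Fin (m + r) → α),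
    IsPath m r P ∧ IsPath m r Q ∧ NeverAbove P Q ∧
    Function.Injective σ ∧ Set.range σ = M.E ∧
    ∀ B : Set α, M.IsBase B ↔
      ∃ R : Fin (m + r) → Bool, IsPath m r R ∧ NeverAbove P R ∧ NeverAbove R Q ∧
        B = σ '' {i | R i = true}

end Pool.Agent.U299.LPM
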