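import Pool.Agent.U299.LPM.Ht

/-!
# Lattice path matroids have the property `Phi`
-/

set_option autoImplicit false

namespace Pool.Agent.U299.LPM

open Set

universe u

variable {α : Type u} {M : Matroid α} {s : ℕ → α} {A B I F K L X Y Z : Set α}
  {n i j k a b u v : ℕ}

theorem bas_iff (hF : F ⊆ M.E) : Bas M B F ↔ M.IsBasis B F := by
  unfold Bas
  rw [Matroid.isBasis_iff hF]
  constructor
  · rintro ⟨h1, h2, h3⟩
    exact ⟨h2, h1, fun J hJ hBJ hJF => hBJ.antisymm (h3 J hJ.subset_ground hJF hBJ hJ)⟩
  · rintro ⟨h2, h1, h3⟩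
    exact ⟨h1, h2, fun J _ hJF hBJ hJ => (h3 J hJ hBJ hJF).ge⟩

theorem Sep.inter (hK : Sep M K) (hL : Sep M L) : Sep M (K ∩ L) := by
  intro I hI h1 h2
  refine hK I hI ?_ ?_
  · refine hL (I ∩ K) (inter_subset_left.trans hI) ?_ ?_
    · rw [inter_assoc]; exact h1
    · refine h2.subset ?_
      rintro x ⟨⟨hx1, -⟩, hx3⟩
      exact ⟨hx1, fun h => hx3 h.2⟩
  · refine h2.subset ?_
    rintro x ⟨hx1, hx2⟩
    exact ⟨hx1, fun h => hx2 h.1⟩

theorem Sep.compl (hK : Sep M K) : Sep M (M.E \ K) := by
  intro I hI h1 h2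
  refine hK I hI ?_ ?_
  · refine h2.subset ?_
    rintro x ⟨hx1, hx2⟩
    exact ⟨hx1, fun h => h.2 hx2⟩
  · refine h1.subset ?_
    rintro x ⟨hx1, hx2⟩
    exact ⟨hx1, hI hx1, hx2⟩

theorem ht_congr_from (huv : u ≤ i) (h0 : ht s A u = ht s B u)
    (h : ∀ j, u ≤ j → j < i → (s j ∈ A ↔ s j ∈ B)) : ht s A i = ht s B i := by
  induction i, huv using Nat.le_induction with
  | base => exact h0
  | succ i hi ih =>
    have ih := ih fun j h1 h2 => h j h1 (by omega)
    by_cases hiA : s i ∈ A
    · rw [ht_succ_mem hiA, ht_succ_mem ((h i hi (by omega)).1 hiA), ih]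
    · rw [ht_succ_notMem hiA, ht_succ_notMem fun h' => hiA ((h i hi (by omega)).2 h'), ih]

theorem LP.mem_ground (h : LP M n s X Y) (hk : k < n) : s k ∈ M.E := by
  rw [← h.ground]; exact ⟨k, hk, rfl⟩

theorem LP.base (h : LP M n s X Y) (hB : M.IsBase B) : ht s B n = ht s Y n ∧
    ∀ i ≤ n, ht s Y i ≤ ht s B i ∧ ht s B i ≤ ht s X i :=
  (h.isBase_iff B hB.subset_ground).1 hB

theorem LP.sep (h : LP M n s X Y) (huv : u ≤ v) (hv : v ≤ n) (h1 : ht s Y u = ht s X u)
    (h2 : ht s Y v = ht s X v) : Sep M (s '' Ico u v) := by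
  intro I hI hI1 hI2
  obtain ⟨B1, hB1, hIB1⟩ := hI1.exists_isBase_superset
  obtain ⟨B2, hB2, hIB2⟩ := hI2.exists_isBase_superset
  set K := s '' Ico u v with hK
  have e1 := h.base hB1
  have e2 := h.base hB2
  let B := (B1 ∩ K) ∪ (B2 \ K)
  have hBE : B ⊆ M.E :=
    union_subset (inter_subset_left.trans hB1.subset_ground)
      (sdiff_subset.trans hB2.subset_ground)
  have m1 : ∀ j, s j ∈ K → (s j ∈ B ↔ s j ∈ B1) := by
    intro j hj
    constructor
    · rintro (h' | h')
      · exact h'.1
      · exact absurd hj h'.2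
    · exact fun h' => Or.inl ⟨h', hj⟩
  have m2 : ∀ j, s j ∉ K → (s j ∈ B ↔ s j ∈ B2) := by
    intro j hj
    constructor
    · rintro (h' | h')
      · exact absurd h'.2 hj
      · exact h'.1
    · exact fun h' => Or.inr ⟨h', hj⟩
  have k1 : ∀ j < n, (s j ∈ K ↔ u ≤ j ∧ j < v) := fun j hj => mem_seg h.inj hj hv
  have hlow : ∀ i ≤ u, ht s B i = ht s B2 i := by
    intro i hi
    refine ht_congr fun j hj => m2 j ?_
    rw [k1 j (by omega)]; omega
  have hmid : ∀ i, u ≤ i → i ≤ v → ht s B i = ht s B1 i := by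
    intro i hi1 hi2
    refine ht_congr_from hi1 ?_ ?_
    · rw [hlow u le_rfl]
      have := e1.2 u (by omega)
      have := e2.2 u (by omega)
      omega
    · intro j hj1 hj2
      exact m1 j ((k1 j (by omega)).2 ⟨hj1, by omega⟩)
  have hhigh : ∀ i, v ≤ i → i ≤ n → ht s B i = ht s B2 i := by
    intro i hi1 hi2
    refine ht_congr_from hi1 ?_ ?_
    · rw [hmid v huv le_rfl]
      have := e1.2 v (by omega)
      have := e2.2 v (by omega)
      omega
    · intro j hj1 hj2
      refine m2 j ?_
      rw [k1 j (by omega)]; omega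
  have hB : M.IsBase B := by
    rw [h.isBase_iff B hBE]
    refine ⟨by rw [hhigh n hv le_rfl]; exact e2.1, fun i hi => ?_⟩
    rcases le_or_gt i u with hiu | hiu
    · rw [hlow i hiu]; exact e2.2 i hi
    · rcases le_or_gt i v with hiv | hiv
      · rw [hmid i hiu.le hiv]; exact e1.2 i hi
      · rw [hhigh i hiv.le hi]; exact e2.2 i hi
  refine hB.indep.subset ?_
  intro x hx
  by_cases hxK : x ∈ K
  · exact Or.inl ⟨hIB1 ⟨hx, hxK⟩, hxK⟩
  · exact Or.inr ⟨hIB2 ⟨hx, hxK⟩, hxK⟩

/-- A set with given heights. -/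
theorem exists_of_ht (inj : InjOn s (Iio n)) (f : ℕ → ℕ) (f0 : f 0 = 0)
    (f1 : ∀ i < n, f (i + 1) = f i ∨ f (i + 1) = f i + 1) :
    ∃ A ⊆ s '' Iio n, ∀ i ≤ n, ht s A i = f i := by
  refine ⟨s '' {k | k < n ∧ f (k + 1) = f k + 1}, image_mono fun k hk => hk.1, ?_⟩
  intro i
  induction i with
  | zero => intro _; rw [ht_zero, f0]
  | succ i ih =>
    intro hi
    have ih := ih (by omega)
    by_cases hfi : f (i + 1) = f i + 1
    · have h2 : s i ∈ s '' {k | k < n ∧ f (k + 1) = f k + 1} := ⟨i, ⟨by omega, hfi⟩, rfl⟩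
      rw [ht_succ_mem h2, ih, hfi]
    · have h1 : s i ∉ s '' {k | k < n ∧ f (k + 1) = f k + 1} := by
        rintro ⟨k, hk, hki⟩
        have := inj (show k < n from hk.1) (show i < n by omega) hki
        rw [this] at hk
        exact hfi hk.2
      rw [ht_succ_notMem h1, ih]
      rcases f1 i (by omega) with h2 | h2
      · exact h2.symm
      · exact absurd h2 hfi

theorem LP.adj (h : LP M n s X Y) (hK : Sep M K) (hi : 0 < i) (hin : i < n)
    (hlt : ht s Y i < ht s X i) : s (i - 1) ∈ K ↔ s i ∈ K := by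
  have hX := h.base h.isBase_X
  have hYm := ht_mono s Y
  have hXm := ht_mono s X
  obtain ⟨A, hAE, hA⟩ := exists_of_ht h.inj
    (fun j => if j < i then min (ht s X j) (ht s Y i) else max (ht s Y j) (ht s Y i + 1))
    (by simp [hi])
    (by
      intro j hj
      have e1 := ht_succ_le s X j
      have e2 := ht_le_succ s X j
      have e3 := ht_succ_le s Y j
      have e4 := ht_le_succ s Y j
      rcases lt_trichotomy (j + 1) i with h1 | h1 | h1
      · simp only [h1, show j < i by omega, if_true]
        omega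
      · subst h1
        simp only [lt_irrefl, if_false, show j < j + 1 by omega, if_true]
        have := ht_succ_le s X j
        omega
      · simp only [show ¬ (j + 1 < i) by omega, show ¬ (j < i) by omega, if_false]
        omega)
  rw [h.ground] at hAE
  have hAb : M.IsBase A := by
    rw [h.isBase_iff A hAE]
    constructor
    · rw [hA n le_rfl]
      simp only [show ¬ (n < i) by omega, if_false]
      have := hXm (show i ≤ n by omega)
      have := hX.1
      omega
    · intro j hj
      rw [hA j hj]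
      have e1 := hX.2 j hj
      by_cases hji : j < i
      · simp only [hji, if_true]
        have := hYm (show j ≤ i by omega)
        omega
      · simp only [hji, if_false]
        have := hXm (show i ≤ j by omega)
        omega
  have hi1 : ht s A (i - 1) = ht s Y i := by
    rw [hA (i - 1) (by omega)]
    simp only [show i - 1 < i by omega, if_true]
    have := ht_succ_le s X (i - 1)
    rw [show i - 1 + 1 = i by omega] at this
    omega
  have hi2 : ht s A i = ht s Y i + 1 := by
    rw [hA i (by omega)]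
    simp
  have hi3 : ht s A (i + 1) = ht s Y i + 1 := by
    rw [hA (i + 1) (by omega)]
    simp only [show ¬ (i + 1 < i) by omega, if_false]
    have := ht_succ_le s Y i
    omega
  have m1 : s (i - 1) ∈ A := by
    by_contra hcon
    have := ht_succ_notMem hcon
    rw [show i - 1 + 1 = i by omega] at this
    omega
  have m2 : s i ∉ A := by
    intro hcon
    have := ht_succ_mem hcon
    omega
  have hA' : M.IsBase ((A \ {s (i - 1)}) ∪ {s i}) := by
    rw [h.isBase_iff]
    · have hex : ∀ j ≤ n, _ := fun j hj => ht_exch (B := A) (i := j) h.inj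
        (show i - 1 < n by omega) hin m1 m2 hj
      constructor
      · have e1 := hex n le_rfl
        simp only [show i - 1 < n by omega, hin, if_true] at e1
        have := (h.base hAb).1
        omega
      · intro j hj
        have e1 := hex j hj
        have e2 := (h.base hAb).2 j hj
        rcases lt_trichotomy j i with hji | hji | hji
        · simp only [show ¬ (i - 1 < j) by omega, show ¬ (i < j) by omega, if_false] at e1
          omega
        · subst hji
          simp only [show j - 1 < j by omega, lt_irrefl, if_true, if_false] at e1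
          omega
        · simp only [show i - 1 < j by omega, hji, if_true] at e1
          omega
    · refine union_subset (sdiff_subset.trans hAE) ?_
      exact singleton_subset_iff.2 (h.mem_ground hin)
  have key : ¬ M.Indep (A ∪ {s i}) := by
    intro hcon
    have := hAb.eq_of_subset_indep hcon subset_union_left
    exact m2 (this ▸ Or.inr rfl)
  have hsub : A ∪ {s i} ⊆ M.E := union_subset hAE (singleton_subset_iff.2 (h.mem_ground hin))
  constructor
  · intro hK1
    by_contra hK2
    refine key (hK _ hsub ?_ ?_)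
    · refine hAb.indep.subset ?_
      rintro x ⟨hx | hx, hxK⟩
      · exact hx
      · rw [mem_singleton_iff] at hx
        exact absurd (hx ▸ hxK) hK2
    · refine hA'.indep.subset ?_
      rintro x ⟨hx | hx, hxK⟩
      · left
        refine ⟨hx, fun hx' => ?_⟩
        rw [mem_singleton_iff] at hx'
        exact hxK (hx' ▸ hK1)
      · exact Or.inr hx
  · intro hK2
    by_contra hK1
    refine key (hK _ hsub ?_ ?_)
    · refine hA'.indep.subset ?_
      rintro x ⟨hx | hx, hxK⟩
      · left
        refine ⟨hx, fun hx' => ?_⟩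
        rw [mem_singleton_iff] at hx'
        exact hK1 (hx' ▸ hxK)
      · exact Or.inr hx
    · refine hAb.indep.subset ?_
      rintro x ⟨hx | hx, hxK⟩
      · exact hx
      · rw [mem_singleton_iff] at hx
        exact absurd (hx ▸ hK2) hxK

/-- A block between two consecutive meeting points of the two extreme paths. -/
structure Block (M : Matroid α) (n : ℕ) (s : ℕ → α) (X Y : Set α) (u v : ℕ) : Prop
    extends LP M n s X Y where
  huv : u < v
  hvn : v ≤ n
  hu : ht s Y u = ht s X u
  hv : ht s Y v = ht s X v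
  lt : ∀ j, u < j → j < v → ht s Y j < ht s X j

theorem LP.comp (h : LP M n s X Y) (hKE : K ⊆ M.E) (hK : Comp M K) :
    ∃ u v, Block M n s X Y u v ∧ K = s '' Ico u v := by
  classical
  obtain ⟨hKs, hKne, hKmin⟩ := hK
  obtain ⟨x, hx⟩ := nonempty_iff_ne_empty.2 hKne
  obtain ⟨j0, hj0, rfl⟩ : ∃ j0 < n, s j0 = x := by
    have := hKE hx
    rw [← h.ground] at this
    obtain ⟨j, hj, hjx⟩ := this
    exact ⟨j, hj, hjx⟩
  have hXn := (h.base h.isBase_X).1
  obtain ⟨u, hu1, hu2, hu3⟩ : ∃ u ≤ j0, ht s Y u = ht s X u ∧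
      ∀ j, u < j → j ≤ j0 → ht s Y j ≠ ht s X j := by
    refine ⟨Nat.findGreatest (fun k => ht s Y k = ht s X k) j0, Nat.findGreatest_le _, ?_, ?_⟩
    · exact Nat.findGreatest_spec (P := fun k => ht s Y k = ht s X k) (Nat.zero_le j0) (by simp)
    · intro j hj1 hj2
      exact Nat.findGreatest_is_greatest (P := fun k => ht s Y k = ht s X k) hj1 hj2
  obtain ⟨v, hv1, hv2, hv3, hv4⟩ : ∃ v, j0 < v ∧ v ≤ n ∧ ht s Y v = ht s X v ∧
      ∀ j, j0 < j → j < v → ht s Y j ≠ ht s X j := by
    have hex : ∃ k, j0 < k ∧ ht s Y k = ht s X k := ⟨n, hj0, hXn.symm⟩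
    refine ⟨Nat.find hex, (Nat.find_spec hex).1, Nat.find_min' hex ⟨hj0, hXn.symm⟩,
      (Nat.find_spec hex).2, ?_⟩
    intro j hj1 hj2 hcon
    exact Nat.find_min hex hj2 ⟨hj1, hcon⟩
  have hlt : ∀ j, u < j → j < v → ht s Y j < ht s X j := by
    intro j hj1 hj2
    have e1 := (h.base h.isBase_X).2 j (by omega)
    rcases le_or_gt j j0 with hj | hj
    · exact lt_of_le_of_ne e1.1 (hu3 j hj1 hj)
    · exact lt_of_le_of_ne e1.1 (hv4 j hj hj2)
  refine ⟨u, v, { toLP := h, huv := by omega, hvn := hv2, hu := hu2, hv := hv3, lt := hlt }, ?_⟩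
  have hsep := h.sep (show u ≤ v by omega) hv2 hu2 hv3
  apply Subset.antisymm
  · have h1 := hKmin (K ∩ s '' Ico u v) (inter_subset_left.trans hKE) inter_subset_left
      (hKs.inter hsep)
    rcases h1 with h1 | h1
    · exfalso
      have : s j0 ∈ K ∩ s '' Ico u v := ⟨hx, ⟨j0, ⟨hu1, hv1⟩, rfl⟩⟩
      rw [h1] at this
      exact this
    · exact h1.trans inter_subset_right
  · have hup : ∀ k, j0 ≤ k → k < v → s k ∈ K := by
      intro k hk
      induction k, hk using Nat.le_induction with
      | base => intro _; exact hx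
      | succ k hk ih =>
        intro hkv
        have := h.adj hKs (show 0 < k + 1 by omega) (by omega) (hlt (k + 1) (by omega) hkv)
        rw [show k + 1 - 1 = k by omega] at this
        exact this.1 (ih (by omega))
    have hdown : ∀ d, d + u ≤ j0 → s (j0 - d) ∈ K := by
      intro d
      induction d with
      | zero => intro _; exact hx
      | succ d ih =>
        intro hd
        have := h.adj hKs (show 0 < j0 - d by omega) (by omega) (hlt (j0 - d) (by omega) (by omega))
        rw [show j0 - d - 1 = j0 - (d + 1) by omega] at this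
        exact this.2 (ih (by omega))
    rintro x ⟨k, hk, rfl⟩
    have hk1 := hk.1
    have hk2 := hk.2
    rcases le_or_gt j0 k with h1 | h1
    · exact hup k h1 hk2
    · have := hdown (j0 - k) (by omega)
      rwa [show j0 - (j0 - k) = k by omega] at this

namespace Block

variable (h : Block M n s X Y u v)

include h

theorem rev : Block M n (rv n s) Y X (n - v) (n - u) where
  toLP := h.toLP.rev
  huv := by have := h.huv; have := h.hvn; omega
  hvn := by omega
  hu := by
    have e1 := ht_rv (s := s) X (show n - v ≤ n by omega)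
    have e2 := ht_rv (s := s) Y (show n - v ≤ n by omega)
    have e3 := h.hv
    have e4 := h.hvn
    have e5 := (h.base h.isBase_X).1
    rw [show n - (n - v) = v by omega] at e1 e2
    omega
  hv := by
    have e1 := ht_rv (s := s) X (show n - u ≤ n by omega)
    have e2 := ht_rv (s := s) Y (show n - u ≤ n by omega)
    have e3 := h.hu
    have e4 := h.hvn
    have e6 := h.huv
    have e5 := (h.base h.isBase_X).1
    rw [show n - (n - u) = u by omega] at e1 e2
    omega
  lt := by
    intro j hj1 hj2
    have e4 := h.hvn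
    have e6 := h.huv
    have e1 := ht_rv (s := s) X (show j ≤ n by omega)
    have e2 := ht_rv (s := s) Y (show j ≤ n by omega)
    have e3 := h.lt (n - j) (by omega) (by omega)
    have e5 := (h.base h.isBase_X).1
    omega

theorem raise (hub : u ≤ b) (hba : b < a) (hav : a < v) (haY : s a ∈ Y) (hbY : s b ∉ Y) :
    M.IsBase ((Y \ {s a}) ∪ {s b}) := by
  have hvn := h.hvn
  rw [h.isBase_iff]
  · have hex : ∀ j ≤ n, _ := fun j hj => ht_exch (B := Y) (i := j) h.inj
      (show a < n by omega) (show b < n by omega) haY hbY hj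
    constructor
    · have e1 := hex n le_rfl
      simp only [show a < n by omega, show b < n by omega, if_true] at e1
      omega
    · intro i hi
      have e1 := hex i hi
      have e2 := (h.base h.isBase_X).2 i hi
      by_cases h1 : a < i
      · simp only [h1, show b < i by omega, if_true] at e1
        omega
      · by_cases h2 : b < i
        · simp only [h1, h2, if_true, if_false] at e1
          have := h.lt i (by omega) (by omega)
          omega
        · simp only [h1, h2, if_false] at e1
          omega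
  · refine union_subset (sdiff_subset.trans h.isBase_Y.subset_ground) ?_
    exact singleton_subset_iff.2 (h.mem_ground (by omega))

theorem seg_subset (hiv : j ≤ n) : s '' Ico i j ⊆ M.E := by
  rw [← h.ground]
  exact image_mono fun k hk => lt_of_lt_of_le hk.2 hiv

theorem card_le (hI : M.Indep I) (hIs : I ⊆ s '' Ico i v) (hiv : i ≤ v) :
    I.ncard + ht s Y i ≤ ht s Y v := by
  obtain ⟨B, hB, hIB⟩ := hI.exists_isBase_superset
  have hvn := h.hvn
  have e1 := ncard_inter_seg (B := B) h.inj hiv hvn
  have e2 := (h.base hB).2 i (by omega)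
  have e3 := (h.base hB).2 v hvn
  have e4 := h.hv
  have e5 : I.ncard ≤ (B ∩ s '' Ico i v).ncard :=
    ncard_le_ncard (subset_inter hIB hIs) (((finite_Ico i v).image s).inter_of_right B)
  omega

theorem bas_of_card (hI : M.Indep I) (hIs : I ⊆ s '' Ico i v) (hiv : i ≤ v)
    (hc : I.ncard + ht s Y i = ht s Y v) : M.IsBasis I (s '' Ico i v) := by
  rw [Matroid.isBasis_iff (h.seg_subset h.hvn)]
  refine ⟨hI, hIs, fun J hJ hIJ hJs => ?_⟩
  refine eq_of_subset_of_ncard_le hIJ ?_ (((finite_Ico i v).image s).subset hJs)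
  have := h.card_le hJ hJs hiv
  omega

theorem bas_Y (hiv : i ≤ v) : M.IsBasis (s '' Ico i v ∩ Y) (s '' Ico i v) := by
  refine h.bas_of_card (h.isBase_Y.indep.subset inter_subset_right) inter_subset_left hiv ?_
  rw [inter_comm]
  exact ncard_inter_seg h.inj hiv h.hvn

theorem good_seg (hui : u < i) (hiv : i < v) (h1 : s (i - 1) ∈ Y) (h2 : s i ∉ Y) :
    Good M (s '' Ico u v) Y (s '' Ico i v) := by
  have hvn := h.hvn
  have hsE : ∀ i, s '' Ico i v ⊆ M.E := fun i => h.seg_subset hvn
  have hFY := h.bas_Y hiv.le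
  refine ⟨image_mono fun k hk => ⟨by have := hk.1; omega, hk.2⟩, (bas_iff (hsE i)).2 hFY, ?_, ?_⟩
  · -- it is a flat of the block
    intro Z hZE hZK hZ
    rw [bas_iff hZE] at hZ
    intro z hz
    obtain ⟨j, ⟨hj1, hj2⟩, rfl⟩ := hZK hz
    by_contra hcon
    have hji : j < i := by
      by_contra hji
      exact hcon ⟨j, ⟨by omega, hj2⟩, rfl⟩
    have hnot : s j ∉ s '' Ico i v ∩ Y := fun h' => hcon h'.1
    by_cases hjY : s j ∈ Y
    · have : M.Indep (insert (s j) (s '' Ico i v ∩ Y)) :=
        h.isBase_Y.indep.subset (insert_subset hjY inter_subset_right)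
      exact hnot (hZ.mem_of_insert_indep hz this)
    · have hjne : j ≠ i - 1 := fun h' => hjY (h' ▸ h1)
      have hb := h.raise hj1 (show j < i - 1 by omega) (show i - 1 < v by omega) h1 hjY
      have : M.Indep (insert (s j) (s '' Ico i v ∩ Y)) := by
        refine hb.indep.subset (insert_subset (Or.inr rfl) ?_)
        rintro x ⟨hx1, hx2⟩
        refine Or.inl ⟨hx2, fun hx3 => ?_⟩
        rw [mem_singleton_iff] at hx3
        rw [hx3] at hx1
        have := (mem_seg h.inj (show i - 1 < n by omega) hvn).1 hx1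
        omega
      exact hnot (hZ.mem_of_insert_indep hz this)
  · -- it has no coloops
    intro Z _ hZF hZ
    rw [eq_empty_iff_forall_notMem]
    intro z hz
    obtain ⟨j, ⟨hj1, hj2⟩, rfl⟩ := hZF hz
    have hjY : s j ∈ Y :=
      (hZ _ (inter_subset_left.trans (hsE i)) ((bas_iff (hsE i)).2 hFY) hz).2
    have hij : i < j := by
      rcases Nat.lt_or_ge i j with h' | h'
      · exact h'
      · have : i = j := by omega
        rw [this] at h2
        exact absurd hjY h2
    have hb := h.raise (show u ≤ i by omega) hij hj2 hjY h2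
    let B := ((s '' Ico i v ∩ Y) \ {s j}) ∪ {s i}
    have hBi : M.Indep B := by
      refine hb.indep.subset ?_
      rintro x (hx | hx)
      · exact Or.inl ⟨hx.1.2, hx.2⟩
      · exact Or.inr hx
    have hBs : B ⊆ s '' Ico i v := by
      rintro x (hx | hx)
      · exact hx.1.1
      · rw [mem_singleton_iff] at hx
        rw [hx]
        exact ⟨i, ⟨le_rfl, hiv⟩, rfl⟩
    have hfin : (s '' Ico i v ∩ Y).Finite := ((finite_Ico i v).image s).inter_of_left Y
    have hBc : B.ncard + ht s Y i = ht s Y v := by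
      have e1 : B.ncard = (s '' Ico i v ∩ Y).ncard := by
        have : B = insert (s i) ((s '' Ico i v ∩ Y) \ {s j}) := union_singleton
        rw [this, ncard_insert_of_notMem _ (hfin.subset sdiff_subset),
          ncard_sdiff_singleton_add_one (show s j ∈ s '' Ico i v ∩ Y from ⟨hZF hz, hjY⟩) hfin]
        exact fun h' => h2 h'.1.2
      have e2 := ncard_inter_seg (B := Y) h.inj hiv.le hvn
      rw [inter_comm] at e2
      omega
    have hBb := h.bas_of_card hBi hBs hiv.le hBc
    have := hZ B (hBs.trans (hsE i)) ((bas_iff (hsE i)).2 hBb) hz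
    rcases this with h3 | h3
    · exact h3.2 rfl
    · rw [mem_singleton_iff] at h3
      rw [h3] at hjY
      exact h2 hjY

theorem eq_seg (hF : Good M (s '' Ico u v) Y F) : ∃ i, u ≤ i ∧ i ≤ v ∧ F = s '' Ico i v := by
  classical
  have hvn := h.hvn
  obtain ⟨hFK, hFY, hflat, hcol⟩ := hF
  have hFE : F ⊆ M.E := hFK.trans (h.seg_subset hvn)
  rw [bas_iff hFE] at hFY
  by_cases hT : ∃ k, u ≤ k ∧ k < v ∧ s k ∈ F ∧ s k ∉ Y
  · obtain ⟨⟨hz1, hz2, hz3, hz4⟩, hzmin⟩ := And.intro (Nat.find_spec hT)
      (fun k (hk : k < Nat.find hT) => Nat.find_min hT hk)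
    set z := Nat.find hT with hz
    have hYin : ∀ k, z < k → k < v → s k ∈ Y → s k ∈ F := by
      intro k hk1 hk2 hk3
      by_contra hkF
      have hb := h.raise hz1 hk1 hk2 hk3 hz4
      have : M.Indep (insert (s z) (F ∩ Y)) := by
        refine hb.indep.subset (insert_subset (Or.inr rfl) ?_)
        rintro x ⟨hx1, hx2⟩
        refine Or.inl ⟨hx2, fun hx3 => ?_⟩
        rw [mem_singleton_iff] at hx3
        exact hkF (hx3 ▸ hx1)
      exact hz4 (hFY.mem_of_insert_indep hz3 this).2
    have hall : ∀ k, z ≤ k → k < v → s k ∈ F := by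
      intro k hk1 hk2
      by_cases hkY : s k ∈ Y
      · rcases Nat.lt_or_ge z k with h' | h'
        · exact hYin k h' hk2 hkY
        · have : z = k := by omega
          exact this ▸ hz3
      · by_contra hkF
        have hkE : s k ∈ M.E := h.mem_ground (by omega)
        have hb : M.IsBasis (F ∩ Y) (insert (s k) F) := by
          rw [Matroid.isBasis_iff (insert_subset hkE hFE)]
          refine ⟨hFY.indep, inter_subset_left.trans (subset_insert _ _), fun J hJ hIJ hJs => ?_⟩
          by_cases hkJ : s k ∈ J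
          · exfalso
            have hD : M.Indep (insert (s k) (s '' Ico k v ∩ Y)) := by
              refine hJ.subset (insert_subset hkJ ?_)
              rintro x ⟨⟨l, ⟨hl1, hl2⟩, rfl⟩, hx2⟩
              refine hIJ ⟨?_, hx2⟩
              refine hYin l ?_ hl2 hx2
              rcases Nat.lt_or_ge k l with h' | h'
              · omega
              · have : l = k := by omega
                rw [this] at hx2
                exact absurd hx2 hkY
            have e1 := h.card_le hD (insert_subset ⟨k, ⟨le_rfl, hk2⟩, rfl⟩ inter_subset_left) hk2.le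
            have hfin : (s '' Ico k v ∩ Y).Finite := ((finite_Ico k v).image s).inter_of_left Y
            rw [ncard_insert_of_notMem (fun h' => hkY h'.2) hfin] at e1
            have e2 := ncard_inter_seg (B := Y) h.inj hk2.le hvn
            rw [inter_comm] at e2
            omega
          · exact hFY.eq_of_subset_indep hJ hIJ fun x hx => by
              rcases hJs hx with h' | h'
              · exact absurd (h' ▸ hx) hkJ
              · exact h'
        have := hflat (insert (s k) F) (insert_subset hkE hFE)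
          (insert_subset ⟨k, ⟨by omega, hk2⟩, rfl⟩ hFK) ((bas_iff (insert_subset hkE hFE)).2 hb)
        exact hkF (this (mem_insert _ _))
    refine ⟨z, hz1, by omega, Subset.antisymm ?_ ?_⟩
    · intro w hw
      obtain ⟨k, ⟨hk1, hk2⟩, rfl⟩ := hFK hw
      by_contra hcon
      have hkz : k < z := by
        by_contra h'
        exact hcon ⟨k, ⟨by omega, hk2⟩, rfl⟩
      -- every basis of `F` contains `s k`
      have hbot : F \ s '' Ico z v ⊆ Y := by
        rintro x ⟨hx1, hx2⟩
        obtain ⟨l, ⟨hl1, hl2⟩, rfl⟩ := hFK hx1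
        by_contra hlY
        have hlz : l < z := by
          by_contra h'
          exact hx2 ⟨l, ⟨by omega, hl2⟩, rfl⟩
        exact hzmin l hlz ⟨hl1, hl2, hx1, hlY⟩
      have hFfin : F.Finite := ((finite_Ico u v).image s).subset hFK
      have hsing := hcol {s k} (singleton_subset_iff.2 (hFE hw)) (singleton_subset_iff.2 hw)
        (fun B _ hB => by
          rw [bas_iff hFE] at hB
          rw [singleton_subset_iff]
          by_contra hkB
          have hseg : s '' Ico z v ⊆ F := by
            rintro x ⟨l, ⟨hl1, hl2⟩, rfl⟩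
            exact hall l hl1 hl2
          have hcard : B.ncard = (F ∩ Y).ncard := by
            have := hB.encard_eq_eRk.trans hFY.encard_eq_eRk.symm
            unfold Set.ncard
            rw [this]
          have hBfin := hFfin.subset hB.subset
          have e1 : (B ∩ s '' Ico z v).ncard + (B \ s '' Ico z v).ncard = B.ncard :=
            ncard_inter_add_ncard_sdiff_eq_ncard B _ hBfin
          have e2 := h.card_le (hB.indep.subset inter_subset_left)
            (inter_subset_right : B ∩ s '' Ico z v ⊆ _) (by omega)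
          have e3 : (F ∩ Y ∩ s '' Ico z v).ncard + ((F ∩ Y) \ s '' Ico z v).ncard =
              (F ∩ Y).ncard :=
            ncard_inter_add_ncard_sdiff_eq_ncard _ _ (hFfin.subset inter_subset_left)
          have e4 : F ∩ Y ∩ s '' Ico z v = Y ∩ s '' Ico z v := by
            ext x
            constructor
            · exact fun hx => ⟨hx.1.2, hx.2⟩
            · exact fun hx => ⟨⟨hseg hx.2, hx.1⟩, hx.2⟩
          have e5 := ncard_inter_seg (B := Y) h.inj (show z ≤ v by omega) hvn
          rw [e4] at e3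
          have e6 : (B \ s '' Ico z v).ncard < ((F ∩ Y) \ s '' Ico z v).ncard := by
            refine ncard_lt_ncard ?_ ((hFfin.subset inter_subset_left).subset sdiff_subset)
            refine ⟨fun x hx => ⟨⟨hB.subset hx.1, hbot ⟨hB.subset hx.1, hx.2⟩⟩, hx.2⟩, fun h' => ?_⟩
            exact hkB (h' ⟨⟨hw, hbot ⟨hw, hcon⟩⟩, hcon⟩).1
          omega)
      exact singleton_ne_empty _ hsing
    · rintro x ⟨l, ⟨hl1, hl2⟩, rfl⟩
      exact hall l hl1 hl2
  · -- `F ⊆ Y`
    have hFsub : F ⊆ Y := by
      intro x hx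
      obtain ⟨k, ⟨hk1, hk2⟩, rfl⟩ := hFK hx
      by_contra hkY
      exact hT ⟨k, hk1, hk2, hx, hkY⟩
    have hind : M.Indep F := h.isBase_Y.indep.subset hFsub
    have : F = ∅ := hcol F hFE Subset.rfl (fun B _ hB => by
      rw [bas_iff hFE] at hB
      exact (hind.eq_of_isBasis hB).ge)
    exact ⟨v, h.huv.le, le_rfl, by rw [this]; simp⟩

theorem last (hA : M.IsBasis A (s '' Ico u v)) (ha : a < n) (hb : b < n) (haA : s a ∈ A)
    (hbK : s b ∈ s '' Ico u v) (hbA : s b ∉ A) (hab : a < b)
    (hdep : ¬ M.Indep ((A \ {s a}) ∪ {s b})) :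
    ∃ F, Good M (s '' Ico u v) Y F ∧ M.IsBasis (A ∩ F) F ∧ s b ∈ F ∧ s a ∉ F := by
  classical
  have hvn := h.hvn
  have hua := ((mem_seg h.inj ha hvn).1 (hA.subset haA)).1
  have hbv := ((mem_seg h.inj hb hvn).1 hbK).2
  obtain ⟨B, hB, hAB⟩ := hA.exists_isBase
  have haB : s a ∈ B := by rw [hAB] at haA; exact haA.1
  have hbB : s b ∉ B := fun h' => hbA (by rw [hAB]; exact ⟨h', hbK⟩)
  have hBh := h.base hB
  have hex : ∀ j ≤ n, _ := fun j hj => ht_exch (B := B) (i := j) h.inj ha hb haB hbB hj
  -- some height of `B` between the two elements is minimal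
  have hS : ∃ i, a < i ∧ i ≤ b ∧ ht s B i = ht s Y i := by
    by_contra hcon
    push Not at hcon
    refine hdep (Matroid.Indep.subset (J := (B \ {s a}) ∪ {s b}) (Matroid.IsBase.indep ?_) ?_)
    · rw [h.isBase_iff]
      · constructor
        · have := hex n le_rfl
          simp only [ha, hb, if_true] at this
          omega
        · intro i hi
          have e1 := hex i hi
          have e2 := hBh.2 i hi
          by_cases h1 : b < i
          · simp only [h1, show a < i by omega, if_true] at e1
            omega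
          · by_cases h2 : a < i
            · simp only [h1, h2, if_true, if_false] at e1
              have := hcon i h2 (by omega)
              omega
            · simp only [h1, h2, if_false] at e1
              omega
      · exact union_subset (sdiff_subset.trans hB.subset_ground)
          (singleton_subset_iff.2 (h.mem_ground hb))
    · rw [hAB]
      rintro x (hx | hx)
      · exact Or.inl ⟨hx.1.1, hx.2⟩
      · exact Or.inr hx
  -- a corner
  have hS' : ∃ i, a < i ∧ i ≤ b ∧ ht s B i = ht s Y i ∧ s i ∉ Y := by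
    obtain ⟨i0, hi0⟩ := hS
    have hi1 := Nat.findGreatest_spec (P := fun i => a < i ∧ i ≤ b ∧ ht s B i = ht s Y i)
      hi0.2.1 hi0
    set i1 := Nat.findGreatest (fun i => a < i ∧ i ≤ b ∧ ht s B i = ht s Y i) b with hdef
    refine ⟨i1, hi1.1, hi1.2.1, hi1.2.2, fun hiY => ?_⟩
    have e1 := ht_succ_mem hiY
    have e2 := hBh.2 (i1 + 1) (by omega)
    have e3 : s i1 ∈ B := by
      by_contra hcon
      have := ht_succ_notMem hcon
      have := hi1.2.2
      omega
    have e4 : i1 ≠ b := fun h' => hbB (h' ▸ e3)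
    have e5 := ht_succ_mem e3
    have e6 := Nat.findGreatest_is_greatest
      (P := fun i => a < i ∧ i ≤ b ∧ ht s B i = ht s Y i) (n := b) (k := i1 + 1)
      (by rw [← hdef]; omega) (by have := hi1.2.1; omega)
    refine e6 ⟨by omega, by have := hi1.2.1; omega, ?_⟩
    have := hi1.2.2
    omega
  obtain ⟨⟨hi1, hi2, hi3, hi4⟩, hmin⟩ := And.intro (Nat.find_spec hS')
      (fun k (hk : k < Nat.find hS') => Nat.find_min hS' hk)
  set i := Nat.find hS' with hidef
  have hi5 : s (i - 1) ∈ Y := by
    by_contra hcon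
    have e1 := ht_succ_notMem hcon
    rw [show i - 1 + 1 = i by omega] at e1
    have e2 := hBh.2 (i - 1) (by omega)
    have e3 : s (i - 1) ∉ B := by
      intro h'
      have := ht_succ_mem h'
      rw [show i - 1 + 1 = i by omega] at this
      omega
    have e4 := ht_succ_notMem e3
    rw [show i - 1 + 1 = i by omega] at e4
    have e5 : i - 1 ≠ a := fun h' => e3 (h' ▸ haB)
    exact hmin (i - 1) (by omega) ⟨by omega, by omega, by omega, hcon⟩
  have hgood := h.good_seg (i := i) (by omega) (by omega) hi5 hi4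
  refine ⟨s '' Ico i v, hgood, ?_, ⟨b, ⟨hi2, hbv⟩, rfl⟩, ?_⟩
  · have hsub : s '' Ico i v ⊆ s '' Ico u v :=
      image_mono fun k hk => ⟨by have := hk.1; omega, hk.2⟩
    have e0 : A ∩ s '' Ico i v = B ∩ s '' Ico i v := by
      rw [hAB, inter_assoc, inter_eq_right.2 hsub]
    rw [e0]
    refine h.bas_of_card (hB.indep.subset inter_subset_left) inter_subset_right (by omega) ?_
    have e1 := ncard_inter_seg (B := B) h.inj (show i ≤ v by omega) hvn
    have e2 := hBh.2 v hvn
    have e3 := h.hv
    omega
  · intro h'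
    have := (mem_seg h.inj ha hvn).1 h'
    omega

end Block

/-- The property of a component of a lattice path matroid. -/
theorem Block.local (h : Block M n s X Y u v) : Local M (s '' Ico u v) X Y := by
  have hr := h.rev
  have hvn := h.hvn
  have huv := h.huv
  have hK : rv n s '' Ico (n - v) (n - u) = s '' Ico u v := by
    rw [rv_seg (by omega), show n - (n - u) = u by omega, show n - (n - v) = v by omega]
  have hKE : s '' Ico u v ⊆ M.E := h.seg_subset hvn
  have hX : ∀ F, Good M (s '' Ico u v) X F → ∃ i, u ≤ i ∧ i ≤ v ∧ F = s '' Ico u i := by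
    intro F hF
    rw [← hK] at hF
    obtain ⟨i, hi1, hi2, hi3⟩ := hr.eq_seg hF
    rw [rv_seg (by omega), show n - (n - u) = u by omega] at hi3
    exact ⟨n - i, by omega, by omega, hi3⟩
  have hY : ∀ F, Good M (s '' Ico u v) Y F → ∃ i, u ≤ i ∧ i ≤ v ∧ F = s '' Ico i v :=
    fun F hF => h.eq_seg hF
  refine ⟨?_, ?_, ?_, ?_⟩
  · intro F _ G _ hF hG
    obtain ⟨i, hi1, hi2, rfl⟩ := hX F hF
    obtain ⟨j, hj1, hj2, rfl⟩ := hX G hG
    rcases le_total i j with hij | hij
    · exact Or.inl (image_mono fun k hk => ⟨hk.1, hk.2.trans_le hij⟩)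
    · exact Or.inr (image_mono fun k hk => ⟨hk.1, hk.2.trans_le hij⟩)
  · intro F _ G _ hF hG
    obtain ⟨i, hi1, hi2, rfl⟩ := hY F hF
    obtain ⟨j, hj1, hj2, rfl⟩ := hY G hG
    rcases le_total i j with hij | hij
    · exact Or.inr (image_mono fun k hk => ⟨hij.trans hk.1, hk.2⟩)
    · exact Or.inl (image_mono fun k hk => ⟨hij.trans hk.1, hk.2⟩)
  · intro F _ G _ hF hG
    obtain ⟨i, hi1, hi2, rfl⟩ := hX F hF
    obtain ⟨j, hj1, hj2, rfl⟩ := hY G hG
    rcases le_total i j with hij | hij
    · left
      rintro x ⟨k, ⟨hk1, hk2⟩, rfl⟩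
      refine ⟨⟨k, ⟨hk1, by omega⟩, rfl⟩, fun h' => ?_⟩
      have := (mem_seg h.inj (show k < n by omega) hvn).1 h'
      omega
    · right
      rintro x ⟨k, ⟨hk1, hk2⟩, rfl⟩
      rcases Nat.lt_or_ge k i with hki | hki
      · exact Or.inl ⟨k, ⟨hk1, hki⟩, rfl⟩
      · exact Or.inr ⟨k, ⟨by omega, hk2⟩, rfl⟩
  · rintro A hAE hA x _ ⟨x, rfl⟩ y _ ⟨y, rfl⟩ hxA hyA hdep
    rw [singleton_subset_iff] at hxA hyA
    rw [bas_iff hKE] at hA
    obtain ⟨a, ⟨ha1, ha2⟩, rfl⟩ := hA.subset hxA
    obtain ⟨hyK, hyA⟩ := hyA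
    obtain ⟨b, ⟨hb1, hb2⟩, rfl⟩ := hyK
    have hne : a ≠ b := fun h' => hyA (h' ▸ hxA)
    rcases Nat.lt_or_ge a b with hab | hab
    · obtain ⟨F, hF, h1, h2, h3⟩ := h.last hA (show a < n by omega) (show b < n by omega) hxA
        ⟨b, ⟨hb1, hb2⟩, rfl⟩ hyA hab hdep
      have hFE : F ⊆ M.E := hF.1.trans hKE
      exact ⟨F, hFE, Or.inr hF, (bas_iff hFE).2 h1, singleton_subset_iff.2 h2,
        singleton_subset_iff.2 ⟨⟨a, ⟨ha1, ha2⟩, rfl⟩, h3⟩⟩
    · have ea : rv n s (n - 1 - a) = s a := by unfold rv; congr 1; omega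
      have eb : rv n s (n - 1 - b) = s b := by unfold rv; congr 1; omega
      rw [← hK] at hA
      rw [← ea, ← eb] at hdep
      obtain ⟨F, hF, h1, h2, h3⟩ := hr.last hA (show n - 1 - a < n by omega)
        (show n - 1 - b < n by omega) (by rw [ea]; exact hxA)
        (by rw [eb, hK]; exact ⟨b, ⟨hb1, hb2⟩, rfl⟩) (by rw [eb]; exact hyA) (by omega) hdep
      rw [hK] at hF
      rw [eb] at h2
      rw [ea] at h3
      have hFE : F ⊆ M.E := hF.1.trans hKE
      exact ⟨F, hFE, Or.inl hF, (bas_iff hFE).2 h1, singleton_subset_iff.2 h2,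
        singleton_subset_iff.2 ⟨⟨a, ⟨ha1, ha2⟩, rfl⟩, h3⟩⟩

theorem LP.phi (h : LP M n s X Y) : Phi M := by
  intro K hKE hK
  obtain ⟨u, v, hb, rfl⟩ := h.comp hKE hK
  exact ⟨X, h.isBase_X.subset_ground, Y, h.isBase_Y.subset_ground, hb.local⟩

end Pool.Agent.U299.LPM
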