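import Pool.Agent.U299.LPM.Sent

/-!
# Heights of sets with respect to a numbering of the ground set
-/

set_option autoImplicit false

namespace Pool.Agent.U299.LPM

open Set

universe u

variable {α : Type u}

open Classical in
/-- The number of elements of `B` among `s 0, ..., s (i - 1)`. -/
noncomputable def ht (s : ℕ → α) (B : Set α) (i : ℕ) : ℕ :=
  ((Finset.range i).filter fun j => s j ∈ B).card

variable {s : ℕ → α} {A B I F K X Y Z : Set α} {n i j k a b u v : ℕ}

@[simp] theorem ht_zero (s : ℕ → α) (B : Set α) : ht s B 0 = 0 := by simp [ht]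

theorem ht_succ_mem (h : s i ∈ B) : ht s B (i + 1) = ht s B i + 1 := by
  classical
  unfold ht
  rw [Finset.range_add_one, Finset.filter_insert, if_pos h, Finset.card_insert_of_notMem]
  simp

theorem ht_succ_notMem (h : s i ∉ B) : ht s B (i + 1) = ht s B i := by
  classical
  unfold ht
  rw [Finset.range_add_one, Finset.filter_insert, if_neg h]

theorem ht_succ_le (s : ℕ → α) (B : Set α) (i : ℕ) : ht s B (i + 1) ≤ ht s B i + 1 := by
  by_cases h : s i ∈ B
  · rw [ht_succ_mem h]
  · rw [ht_succ_notMem h]; omega

theorem ht_le_succ (s : ℕ → α) (B : Set α) (i : ℕ) : ht s B i ≤ ht s B (i + 1) := by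
  by_cases h : s i ∈ B
  · rw [ht_succ_mem h]; omega
  · rw [ht_succ_notMem h]

theorem ht_mono (s : ℕ → α) (B : Set α) : Monotone (ht s B) := monotone_nat_of_le_succ (ht_le_succ s B)

theorem ht_congr (h : ∀ j < i, (s j ∈ A ↔ s j ∈ B)) : ht s A i = ht s B i := by
  induction i with
  | zero => simp
  | succ i ih =>
    have ih := ih fun j hj => h j (by omega)
    by_cases hi : s i ∈ A
    · rw [ht_succ_mem hi, ht_succ_mem ((h i (by omega)).1 hi), ih]
    · rw [ht_succ_notMem hi, ht_succ_notMem fun h' => hi ((h i (by omega)).2 h'), ih]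

theorem mem_iff_of_ht (hi : i < n) (h : ∀ j ≤ n, ht s A j = ht s B j) : s i ∈ A ↔ s i ∈ B := by
  have h1 := h i (by omega)
  have h2 := h (i + 1) (by omega)
  by_cases hA : s i ∈ A
  · by_cases hB : s i ∈ B
    · exact ⟨fun _ => hB, fun _ => hA⟩
    · rw [ht_succ_mem hA, ht_succ_notMem hB] at h2; omega
  · by_cases hB : s i ∈ B
    · rw [ht_succ_notMem hA, ht_succ_mem hB] at h2; omega
    · exact ⟨fun h => absurd h hA, fun h => absurd h hB⟩

/-- The effect of an exchange. -/
theorem ht_exch (inj : InjOn s (Iio n)) (ha : a < n) (hb : b < n) (haB : s a ∈ B)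
    (hbB : s b ∉ B) (hi : i ≤ n) :
    ht s ((B \ {s a}) ∪ {s b}) i + (if a < i then 1 else 0) =
      ht s B i + (if b < i then 1 else 0) := by
  have hab : a ≠ b := fun h => hbB (h ▸ haB)
  induction i with
  | zero => simp
  | succ i ih =>
    have ih := ih (by omega)
    have hin : i < n := by omega
    have h1 : ∀ c < n, (s i = s c ↔ i = c) := fun c hc =>
      ⟨fun h => inj hin hc h, fun h => by rw [h]⟩
    by_cases hia : i = a
    · subst hia
      have h2 : s i ∉ (B \ {s i}) ∪ {s b} := by
        simp only [mem_union, mem_sdiff, mem_singleton_iff, h1 b hb]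
        tauto
      rw [ht_succ_notMem h2, ht_succ_mem haB]
      simp only [lt_irrefl, if_false] at ih
      rw [if_pos (by omega)]
      have h3 : (b < i + 1) ↔ b < i := by omega
      simp only [h3]
      omega
    · by_cases hib : i = b
      · subst hib
        have h2 : s i ∈ (B \ {s a}) ∪ {s i} := Or.inr rfl
        rw [ht_succ_mem h2, ht_succ_notMem hbB]
        simp only [lt_irrefl, if_false] at ih
        rw [if_pos (show i < i + 1 by omega)]
        have h3 : (a < i + 1) ↔ a < i := by omega
        simp only [h3]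
        omega
      · have h3 : (b < i + 1) ↔ b < i := by omega
        have h4 : (a < i + 1) ↔ a < i := by omega
        simp only [h3, h4]
        have h5 : s i ∈ (B \ {s a}) ∪ {s b} ↔ s i ∈ B := by
          simp only [mem_union, mem_sdiff, mem_singleton_iff, h1 a ha, h1 b hb]
          tauto
        by_cases h6 : s i ∈ B
        · rw [ht_succ_mem h6, ht_succ_mem (h5.2 h6)]; omega
        · rw [ht_succ_notMem h6, ht_succ_notMem fun h => h6 (h5.1 h)]; omega

/-- The number of elements of `B` in a segment. -/
theorem ncard_inter_seg (inj : InjOn s (Iio n)) (hij : i ≤ j) (hj : j ≤ n) :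
    (B ∩ s '' Ico i j).ncard + ht s B i = ht s B j := by
  induction j, hij using Nat.le_induction with
  | base => simp
  | succ j hij ih =>
    have ih := ih (by omega)
    have h1 : Ico i (j + 1) = insert j (Ico i j) := by
      ext k; simp only [mem_Ico, mem_insert_iff]; omega
    have hfin : (B ∩ s '' Ico i j).Finite := ((finite_Ico i j).image s).inter_of_right B
    rw [h1, image_insert_eq]
    by_cases hB : s j ∈ B
    · rw [inter_insert_of_mem hB, ncard_insert_of_notMem _ hfin, ht_succ_mem hB]
      · omega
      · rintro ⟨-, k, hk, hkj⟩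
        have := inj (show k < n by have := hk.2; omega) (show j < n by omega) hkj
        have := hk.2
        omega
    · rw [inter_insert_of_notMem hB, ht_succ_notMem hB]
      omega

theorem ncard_eq_ht (inj : InjOn s (Iio n)) (hB : B ⊆ s '' Iio n) : B.ncard = ht s B n := by
  have h := ncard_inter_seg (B := B) inj (Nat.zero_le n) le_rfl
  rw [ht_zero, add_zero] at h
  rw [← h]
  congr 1
  refine (inter_eq_left.2 ?_).symm
  refine hB.trans (image_mono ?_)
  intro k hk
  exact ⟨Nat.zero_le _, hk⟩

theorem mem_seg (inj : InjOn s (Iio n)) (hk : k < n) (hj : j ≤ n) :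
    s k ∈ s '' Ico i j ↔ i ≤ k ∧ k < j := by
  constructor
  · rintro ⟨l, hl, hlk⟩
    have := inj (show l < n by have := hl.2; omega) hk hlk
    rw [← this]
    exact hl
  · intro h
    exact ⟨k, h, rfl⟩

/-- `M` is described by the numbering `s` of its ground set and its highest and lowest bases `X`,
`Y`. -/
structure LP (M : Matroid α) (n : ℕ) (s : ℕ → α) (X Y : Set α) : Prop where
  inj : InjOn s (Iio n)
  ground : s '' Iio n = M.E
  isBase_X : M.IsBase X
  isBase_Y : M.IsBase Y
  isBase_iff : ∀ B ⊆ M.E, (M.IsBase B ↔ ht s B n = ht s Y n ∧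
    ∀ i ≤ n, ht s Y i ≤ ht s B i ∧ ht s B i ≤ ht s X i)

/-- The reversed numbering. -/
def rv (n : ℕ) (s : ℕ → α) (i : ℕ) : α := s (n - 1 - i)

theorem ht_rv (B : Set α) (hi : i ≤ n) : ht (rv n s) B i + ht s B (n - i) = ht s B n := by
  induction i with
  | zero => simp
  | succ i ih =>
    have ih := ih (by omega)
    have h1 : n - i = (n - (i + 1)) + 1 := by omega
    have h2 : rv n s i = s (n - (i + 1)) := by unfold rv; congr 1; omega
    rw [h1] at ih
    by_cases h : s (n - (i + 1)) ∈ B
    · rw [ht_succ_mem h] at ih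
      rw [ht_succ_mem (by rw [h2]; exact h)]
      omega
    · rw [ht_succ_notMem h] at ih
      rw [ht_succ_notMem (by rw [h2]; exact h)]
      omega

theorem rv_seg (hj : j ≤ n) : rv n s '' Ico i j = s '' Ico (n - j) (n - i) := by
  ext x
  constructor
  · rintro ⟨k, hk, rfl⟩
    have h1 := hk.1
    have h2 := hk.2
    exact ⟨n - 1 - k, ⟨by omega, by omega⟩, rfl⟩
  · rintro ⟨k, hk, rfl⟩
    have h1 := hk.1
    have h2 := hk.2
    refine ⟨n - 1 - k, ⟨by omega, by omega⟩, ?_⟩
    unfold rv
    congr 1
    omega

theorem LP.rev {M : Matroid α} (h : LP M n s X Y) : LP M n (rv n s) Y X where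
  inj := by
    intro i hi j hj hij
    have hi : i < n := hi
    have hj : j < n := hj
    have := h.inj (show n - 1 - i < n by omega) (show n - 1 - j < n by omega) hij
    omega
  ground := by
    rw [← h.ground]
    ext x
    constructor
    · rintro ⟨k, hk, rfl⟩
      have hk : k < n := hk
      exact ⟨n - 1 - k, show n - 1 - k < n by omega, rfl⟩
    · rintro ⟨k, hk, rfl⟩
      have hk : k < n := hk
      refine ⟨n - 1 - k, show n - 1 - k < n by omega, ?_⟩
      unfold rv
      congr 1
      omega
  isBase_X := h.isBase_Y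
  isBase_Y := h.isBase_X
  isBase_iff := by
    intro B hB
    have hX := (h.isBase_iff X h.isBase_X.subset_ground).1 h.isBase_X
    rw [h.isBase_iff B hB]
    have e0 : ∀ A : Set α, ht (rv n s) A n = ht s A n := fun A => by
      have := ht_rv (s := s) A (le_refl n)
      simpa using this
    rw [e0, e0, hX.1]
    refine and_congr_right fun hn => ?_
    constructor
    · intro h1 i hi
      have := h1 (n - i) (by omega)
      have e1 := ht_rv (s := s) B hi
      have e2 := ht_rv (s := s) X hi
      have e3 := ht_rv (s := s) Y hi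
      omega
    · intro h1 i hi
      have := h1 (n - i) (by omega)
      have e1 := ht_rv (s := s) B (show n - i ≤ n by omega)
      have e2 := ht_rv (s := s) X (show n - i ≤ n by omega)
      have e3 := ht_rv (s := s) Y (show n - i ≤ n by omega)
      rw [show n - (n - i) = i by omega] at e1 e2 e3
      omega

end Pool.Agent.U299.LPM
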