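import Pool.Agent.U299.LPM.Defs

/-!
# A sentence of `MS₀`

`Phi M` is the property of the matroid `M` that will be shown to characterise lattice path matroids;
in this file it is expressed by a sentence.
-/

set_option autoImplicit false

namespace Pool.Agent.U299.LPM

open Set

universe u

variable {α : Type u}

/-! ### The property -/

/-- `B` is a maximal independent subset of `F`. -/
def Bas (M : Matroid α) (B F : Set α) : Prop :=
  B ⊆ F ∧ M.Indep B ∧ ∀ Z ⊆ M.E, Z ⊆ F → B ⊆ Z → M.Indep Z → Z ⊆ B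

/-- `K` is a separator. -/
def Sep (M : Matroid α) (K : Set α) : Prop :=
  ∀ I ⊆ M.E, M.Indep (I ∩ K) → M.Indep (I \ K) → M.Indep I

/-- `K` is a component: a minimal nonempty separator. -/
def Comp (M : Matroid α) (K : Set α) : Prop :=
  Sep M K ∧ K ≠ ∅ ∧ ∀ L ⊆ M.E, L ⊆ K → Sep M L → L = ∅ ∨ K ⊆ L

/-- `F` is a flat of the restriction to `K` spanned by `F ∩ X`, without coloops. -/
def Good (M : Matroid α) (K X F : Set α) : Prop :=
  F ⊆ K ∧ Bas M (F ∩ X) F ∧ (∀ Z ⊆ M.E, Z ⊆ K → Bas M (F ∩ X) Z → Z ⊆ F) ∧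
    ∀ Z ⊆ M.E, Z ⊆ F → (∀ B ⊆ M.E, Bas M B F → Z ⊆ B) → Z = ∅

/-- `x` is a set with exactly one element. -/
def IsSing (x : Set α) : Prop := ∃ a, x = {a}

/-- The condition on the component `K` with the parameters `X`, `Y`. -/
def Local (M : Matroid α) (K X Y : Set α) : Prop :=
  (∀ F ⊆ M.E, ∀ G ⊆ M.E, Good M K X F → Good M K X G → F ⊆ G ∨ G ⊆ F) ∧
  (∀ F ⊆ M.E, ∀ G ⊆ M.E, Good M K Y F → Good M K Y G → F ⊆ G ∨ G ⊆ F) ∧
  (∀ F ⊆ M.E, ∀ G ⊆ M.E, Good M K X F → Good M K Y G → F ⊆ K \ G ∨ K ⊆ F ∪ G) ∧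
  ∀ A ⊆ M.E, Bas M A K → ∀ x ⊆ M.E, IsSing x → ∀ y ⊆ M.E, IsSing y → x ⊆ A → y ⊆ K \ A →
    ¬ M.Indep ((A \ x) ∪ y) →
      ∃ F ⊆ M.E, (Good M K X F ∨ Good M K Y F) ∧ Bas M (A ∩ F) F ∧ y ⊆ F ∧ x ⊆ K \ F

/-- The property. -/
def Phi (M : Matroid α) : Prop :=
  ∀ K ⊆ M.E, Comp M K → ∃ X ⊆ M.E, ∃ Y ⊆ M.E, Local M K X Y

/-! ### Boolean terms -/

/-- Boolean combinations of the set variables. -/
inductive BT (n : ℕ) : Type
  | var (i : Fin n) : BT n
  | inter (s t : BT n) : BT n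
  | union (s t : BT n) : BT n
  | diff (s t : BT n) : BT n

/-- The value of a Boolean term. -/
def BT.eval {n : ℕ} : BT n → (Fin n → Set α) → Set α
  | .var i, w => w i
  | .inter s t, w => s.eval w ∩ t.eval w
  | .union s t, w => s.eval w ∪ t.eval w
  | .diff s t, w => s.eval w \ t.eval w

/-- Renumbering of the variables. -/
def BT.shift {n : ℕ} : BT n → BT (n + 1)
  | .var i => .var i.succ
  | .inter s t => .inter s.shift t.shift
  | .union s t => .union s.shift t.shift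
  | .diff s t => .diff s.shift t.shift

@[simp] theorem BT.eval_shift {n : ℕ} (t : BT n) (X : Set α) (w : Fin n → Set α) :
    t.shift.eval (Fin.cons X w : Fin (n + 1) → Set α) = t.eval w := by
  induction t with
  | var i => simp [BT.eval, BT.shift]
  | inter s t hs ht => simp [BT.eval, BT.shift, hs, ht]
  | union s t hs ht => simp [BT.eval, BT.shift, hs, ht]
  | diff s t hs ht => simp [BT.eval, BT.shift, hs, ht]

theorem BT.eval_subset {n : ℕ} (M : Matroid α) (t : BT n) (w : Fin n → Set α)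
    (hw : ∀ i, w i ⊆ M.E) : t.eval w ⊆ M.E := by
  induction t with
  | var i => exact hw i
  | inter s t hs _ => exact inter_subset_left.trans hs
  | union s t hs ht => exact union_subset hs ht
  | diff s t hs _ => exact sdiff_subset.trans hs

theorem cons_subset {n : ℕ} {M : Matroid α} {X : Set α} {w : Fin n → Set α} (hX : X ⊆ M.E)
    (hw : ∀ i, w i ⊆ M.E) (i : Fin (n + 1)) : (Fin.cons X w : Fin (n + 1) → Set α) i ⊆ M.E := by
  refine Fin.cases ?_ (fun j => ?_) i
  · exact hX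
  · exact hw j

/-! ### Formulas -/

/-- `Xᵢ = ∅` -/
def fEmp {n : ℕ} (i : Fin n) : Formula n := .all (.sub i.succ 0)

theorem sat_fEmp {n : ℕ} (M : Matroid α) (w : Fin n → Set α) (i : Fin n) :
    Sat M (fEmp i) w ↔ w i = ∅ := by
  unfold fEmp
  simp only [Sat, Fin.cons_succ, Fin.cons_zero]
  constructor
  · intro h
    exact subset_empty_iff.1 (h ∅ (empty_subset _))
  · intro h X _
    rw [h]
    exact empty_subset _

/-- `Xᵢ` is a singleton. -/
def fSing {n : ℕ} (i : Fin n) : Formula n :=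
  .and (.neg (fEmp i)) (.all (.imp (.sub 0 i.succ) (.or (fEmp 0) (.sub i.succ 0))))

theorem sat_fSing {n : ℕ} (M : Matroid α) (w : Fin n → Set α) (hw : ∀ i, w i ⊆ M.E) (i : Fin n) :
    Sat M (fSing i) w ↔ IsSing (w i) := by
  unfold fSing
  simp only [Sat, sat_fEmp, Fin.cons_succ, Fin.cons_zero]
  constructor
  · rintro ⟨h1, h2⟩
    obtain ⟨a, ha⟩ := nonempty_iff_ne_empty.2 h1
    rcases h2 {a} (singleton_subset_iff.2 (hw i ha)) (singleton_subset_iff.2 ha) with h | h
    · exact absurd h (singleton_ne_empty a)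
    · exact ⟨a, Subset.antisymm h (singleton_subset_iff.2 ha)⟩
  · rintro ⟨a, ha⟩
    rw [ha]
    refine ⟨singleton_ne_empty a, fun X _ hX => ?_⟩
    rcases subset_singleton_iff_eq.1 hX with h | h
    · exact Or.inl h
    · exact Or.inr h.ge

/-- The element of the singleton `X₀` is in the set given by a Boolean term. -/
def fMem {n : ℕ} : BT n → Formula (n + 1)
  | .var i => .sub 0 i.succ
  | .inter s t => .and (fMem s) (fMem t)
  | .union s t => .or (fMem s) (fMem t)
  | .diff s t => .and (fMem s) (.neg (fMem t))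

theorem sat_fMem {n : ℕ} (M : Matroid α) (w : Fin n → Set α) (t : BT n) (a : α) :
    Sat M (fMem t) (Fin.cons {a} w) ↔ a ∈ t.eval w := by
  induction t with
  | var i => simp [fMem, Sat, BT.eval]
  | inter s t hs ht => simp [fMem, Sat, BT.eval, hs, ht]
  | union s t hs ht => simp [fMem, Sat, BT.eval, hs, ht]
  | diff s t hs ht => simp [fMem, Sat, BT.eval, hs, ht]

/-- Inclusion of the values of two Boolean terms. -/
def fSub {n : ℕ} (s t : BT n) : Formula n := .all (.imp (fSing 0) (.imp (fMem s) (fMem t)))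

theorem sat_fSub {n : ℕ} (M : Matroid α) (w : Fin n → Set α) (hw : ∀ i, w i ⊆ M.E) (s t : BT n) :
    Sat M (fSub s t) w ↔ s.eval w ⊆ t.eval w := by
  unfold fSub
  simp only [Sat]
  constructor
  · intro h a ha
    have haE : ({a} : Set α) ⊆ M.E := singleton_subset_iff.2 (s.eval_subset M w hw ha)
    have h1 := h {a} haE ((sat_fSing M _ (cons_subset haE hw) 0).2 ⟨a, rfl⟩)
    rw [sat_fMem, sat_fMem] at h1
    exact h1 ha
  · intro h X hX hs
    obtain ⟨a, ha⟩ := (sat_fSing M _ (cons_subset hX hw) 0).1 hs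
    rw [Fin.cons_zero] at ha
    subst ha
    rw [sat_fMem, sat_fMem]
    exact fun h1 => h h1

/-- The value of a Boolean term is independent. -/
def fInd {n : ℕ} (t : BT n) : Formula n :=
  .ex (.and (.and (fSub (.var 0) t.shift) (fSub t.shift (.var 0))) (.ind 0))

theorem sat_fInd {n : ℕ} (M : Matroid α) (w : Fin n → Set α) (hw : ∀ i, w i ⊆ M.E) (t : BT n) :
    Sat M (fInd t) w ↔ M.Indep (t.eval w) := by
  unfold fInd
  simp only [Sat]
  constructor
  · rintro ⟨X, hX, ⟨h1, h2⟩, h3⟩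
    rw [sat_fSub M _ (cons_subset hX hw)] at h1 h2
    simp only [BT.eval, BT.eval_shift, Fin.cons_zero] at h1 h2 h3
    rwa [Subset.antisymm h2 h1]
  · intro h
    refine ⟨t.eval w, h.subset_ground, ⟨?_, ?_⟩, h⟩
    · rw [sat_fSub M _ (cons_subset h.subset_ground hw)]
      simp [BT.eval]
    · rw [sat_fSub M _ (cons_subset h.subset_ground hw)]
      simp [BT.eval]

theorem sat_all_iff {n : ℕ} {M : Matroid α} {w : Fin n → Set α} (hw : ∀ i, w i ⊆ M.E)
    {φ : Formula (n + 1)} {S : Set α → Prop}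
    (h : ∀ X ⊆ M.E, (∀ i, (Fin.cons X w : Fin (n + 1) → Set α) i ⊆ M.E) →
      (Sat M φ (Fin.cons X w) ↔ S X)) :
    Sat M (.all φ) w ↔ ∀ X ⊆ M.E, S X := by
  simp only [Sat]
  exact forall_congr' fun X => forall_congr' fun hX => h X hX (cons_subset hX hw)

theorem sat_ex_iff {n : ℕ} {M : Matroid α} {w : Fin n → Set α} (hw : ∀ i, w i ⊆ M.E)
    {φ : Formula (n + 1)} {S : Set α → Prop}
    (h : ∀ X ⊆ M.E, (∀ i, (Fin.cons X w : Fin (n + 1) → Set α) i ⊆ M.E) →
      (Sat M φ (Fin.cons X w) ↔ S X)) :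
    Sat M (.ex φ) w ↔ ∃ X ⊆ M.E, S X := by
  simp only [Sat]
  exact exists_congr fun X => and_congr_right fun hX => h X hX (cons_subset hX hw)

/-- `s` is a maximal independent subset of `t` -/
def fBas {n : ℕ} (s t : BT n) : Formula n :=
  .and (fSub s t) (.and (fInd s) (.all (.imp (fSub (.var 0) t.shift)
    (.imp (fSub s.shift (.var 0)) (.imp (.ind 0) (fSub (.var 0) s.shift))))))

theorem sat_fBas {n : ℕ} (M : Matroid α) (w : Fin n → Set α) (hw : ∀ i, w i ⊆ M.E) (s t : BT n) :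
    Sat M (fBas s t) w ↔ Bas M (s.eval w) (t.eval w) := by
  unfold fBas Bas
  refine and_congr (sat_fSub M w hw s t) (and_congr (sat_fInd M w hw s) ?_)
  refine sat_all_iff hw fun X hX hw' => ?_
  simp only [Sat, sat_fSub M _ hw', BT.eval, BT.eval_shift, Fin.cons_zero]

/-- `t` is a separator -/
def fSep {n : ℕ} (t : BT n) : Formula n :=
  .all (.imp (fInd (.inter (.var 0) t.shift)) (.imp (fInd (.diff (.var 0) t.shift)) (.ind 0)))

theorem sat_fSep {n : ℕ} (M : Matroid α) (w : Fin n → Set α) (hw : ∀ i, w i ⊆ M.E) (t : BT n) :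
    Sat M (fSep t) w ↔ Sep M (t.eval w) := by
  unfold fSep Sep
  refine sat_all_iff hw fun X hX hw' => ?_
  simp only [Sat, sat_fInd M _ hw', BT.eval, BT.eval_shift, Fin.cons_zero]

/-- `Xᵢ` is a component -/
def fComp {n : ℕ} (i : Fin n) : Formula n :=
  .and (fSep (.var i)) (.and (.neg (fEmp i)) (.all (.imp (.sub 0 i.succ) (.imp (fSep (.var 0))
    (.or (fEmp 0) (.sub i.succ 0))))))

theorem sat_fComp {n : ℕ} (M : Matroid α) (w : Fin n → Set α) (hw : ∀ i, w i ⊆ M.E) (i : Fin n) :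
    Sat M (fComp i) w ↔ Comp M (w i) := by
  unfold fComp Comp
  refine and_congr (sat_fSep M w hw _) (and_congr ?_ ?_)
  · simp only [Sat, sat_fEmp]
  · refine sat_all_iff hw fun X hX hw' => ?_
    simp only [Sat, sat_fSep M _ hw', sat_fEmp, BT.eval, Fin.cons_zero, Fin.cons_succ]

/-- the formula for `Good` -/
def fGood {n : ℕ} (k x f : Fin n) : Formula n :=
  .and (.sub f k) (.and (fBas (.inter (.var f) (.var x)) (.var f)) (.and
    (.all (.imp (.sub 0 k.succ) (.imp (fBas (.inter (.var f.succ) (.var x.succ)) (.var 0))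
      (.sub 0 f.succ))))
    (.all (.imp (.sub 0 f.succ) (.imp
      (.all (.imp (fBas (.var 0) (.var f.succ.succ)) (.sub 1 0))) (fEmp 0))))))

theorem sat_fGood {n : ℕ} (M : Matroid α) (w : Fin n → Set α) (hw : ∀ i, w i ⊆ M.E)
    (k x f : Fin n) : Sat M (fGood k x f) w ↔ Good M (w k) (w x) (w f) := by
  unfold fGood Good
  refine and_congr Iff.rfl (and_congr (sat_fBas M w hw _ _) (and_congr ?_ ?_))
  · refine sat_all_iff hw fun X hX hw' => ?_
    simp only [Sat, sat_fBas M _ hw', BT.eval, Fin.cons_zero, Fin.cons_succ]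
  · refine sat_all_iff hw fun X hX hw' => ?_
    refine imp_congr ?_ (imp_congr ?_ ?_)
    · simp only [Sat, Fin.cons_zero, Fin.cons_succ]
    · refine sat_all_iff hw' fun Y hY hw'' => ?_
      simp only [Sat, sat_fBas M _ hw'', BT.eval, Fin.cons_zero, Fin.cons_succ]
      rfl
    · rw [sat_fEmp, Fin.cons_zero]

/-- the formula for the chain conditions -/
def fChain {n : ℕ} (k x : Fin n) : Formula n :=
  .all (.all (.imp (fGood k.succ.succ x.succ.succ 1) (.imp (fGood k.succ.succ x.succ.succ 0)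
    (.or (.sub 1 0) (.sub 0 1)))))

theorem sat_fChain {n : ℕ} (M : Matroid α) (w : Fin n → Set α) (hw : ∀ i, w i ⊆ M.E)
    (k x : Fin n) : Sat M (fChain k x) w ↔
      ∀ F ⊆ M.E, ∀ G ⊆ M.E, Good M (w k) (w x) F → Good M (w k) (w x) G → F ⊆ G ∨ G ⊆ F := by
  unfold fChain
  refine sat_all_iff hw fun F hF hw' => sat_all_iff hw' fun G hG hw'' => ?_
  have h1 : (Fin.cons G (Fin.cons F w) : Fin (n + 2) → Set α) 1 = F := rfl
  simp only [Sat, sat_fGood M _ hw'', Fin.cons_zero, Fin.cons_succ, h1]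

/-- the formula for the mixed chain condition -/
def fMixed {n : ℕ} (k x y : Fin n) : Formula n :=
  .all (.all (.imp (fGood k.succ.succ x.succ.succ 1) (.imp (fGood k.succ.succ y.succ.succ 0)
    (.or (fSub (.var 1) (.diff (.var k.succ.succ) (.var 0)))
      (fSub (.var k.succ.succ) (.union (.var 1) (.var 0)))))))

theorem sat_fMixed {n : ℕ} (M : Matroid α) (w : Fin n → Set α) (hw : ∀ i, w i ⊆ M.E)
    (k x y : Fin n) : Sat M (fMixed k x y) w ↔
      ∀ F ⊆ M.E, ∀ G ⊆ M.E, Good M (w k) (w x) F → Good M (w k) (w y) G →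
        F ⊆ w k \ G ∨ w k ⊆ F ∪ G := by
  unfold fMixed
  refine sat_all_iff hw fun F hF hw' => sat_all_iff hw' fun G hG hw'' => ?_
  have h1 : (Fin.cons G (Fin.cons F w) : Fin (n + 2) → Set α) 1 = F := rfl
  simp only [Sat, sat_fGood M _ hw'', sat_fSub M _ hw'', BT.eval, Fin.cons_zero, Fin.cons_succ, h1]

/-- the formula for the last condition of `Local`; here the bound variables are, from the inside,
`F = 0`, `y = 1`, `x = 2`, `A = 3` -/
def fLast {n : ℕ} (k x y : Fin n) : Formula n :=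
  .all (.imp (fBas (.var 0) (.var k.succ)) (.all (.imp (fSing 0) (.all (.imp (fSing 0)
    (.imp (.sub 1 2) (.imp (fSub (.var 0) (.diff (.var k.succ.succ.succ) (.var 2)))
      (.imp (.neg (fInd (.union (.diff (.var 2) (.var 1)) (.var 0))))
        (.ex (.and (.or (fGood k.succ.succ.succ.succ x.succ.succ.succ.succ 0)
            (fGood k.succ.succ.succ.succ y.succ.succ.succ.succ 0))
          (.and (fBas (.inter (.var 3) (.var 0)) (.var 0)) (.and (.sub 1 0)
            (fSub (.var 2) (.diff (.var k.succ.succ.succ.succ) (.var 0))))))))))))))) 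

theorem sat_fLast {n : ℕ} (M : Matroid α) (w : Fin n → Set α) (hw : ∀ i, w i ⊆ M.E)
    (k x y : Fin n) : Sat M (fLast k x y) w ↔
      ∀ A ⊆ M.E, Bas M A (w k) → ∀ a ⊆ M.E, IsSing a → ∀ b ⊆ M.E, IsSing b → a ⊆ A →
        b ⊆ w k \ A → ¬ M.Indep ((A \ a) ∪ b) →
        ∃ F ⊆ M.E, (Good M (w k) (w x) F ∨ Good M (w k) (w y) F) ∧ Bas M (A ∩ F) F ∧ b ⊆ F ∧
          a ⊆ w k \ F := by
  unfold fLast
  refine sat_all_iff hw fun A hA hw1 => imp_congr ?_ (sat_all_iff hw1 fun a ha hw2 =>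
    imp_congr ?_ (sat_all_iff hw2 fun b hb hw3 => imp_congr ?_ (imp_congr ?_ (imp_congr ?_
      (imp_congr ?_ (sat_ex_iff hw3 fun F hF hw4 => ?_))))))
  · simp only [sat_fBas M _ hw1, BT.eval, Fin.cons_zero, Fin.cons_succ]
  · simp only [sat_fSing M _ hw2, Fin.cons_zero]
  · simp only [sat_fSing M _ hw3, Fin.cons_zero]
  · exact Iff.rfl
  · simp only [sat_fSub M _ hw3, BT.eval, Fin.cons_zero, Fin.cons_succ]
    rfl
  · simp only [Sat, sat_fInd M _ hw3, BT.eval, Fin.cons_zero, Fin.cons_succ]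
    rfl
  · simp only [Sat, sat_fGood M _ hw4, sat_fBas M _ hw4, sat_fSub M _ hw4, BT.eval, Fin.cons_zero,
      Fin.cons_succ]
    rfl

/-- The sentence. -/
def sentence : Formula 0 :=
  .all (.imp (fComp 0) (.ex (.ex (.and (fChain 2 1) (.and (fChain 2 0) (.and (fMixed 2 1 0)
    (fLast 2 1 0)))))))

theorem models_sentence (M : Matroid α) : Models M sentence ↔ Phi M := by
  unfold Models sentence Phi
  have hw : ∀ i, (Fin.elim0 : Fin 0 → Set α) i ⊆ M.E := fun i => i.elim0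
  refine sat_all_iff hw fun K hK hw1 => imp_congr (sat_fComp M _ hw1 0) (sat_ex_iff hw1
    fun X hX hw2 => sat_ex_iff hw2 fun Y hY hw3 => ?_)
  unfold Local
  exact and_congr (sat_fChain M _ hw3 2 1) (and_congr (sat_fChain M _ hw3 2 0)
    (and_congr (sat_fMixed M _ hw3 2 1 0) (sat_fLast M _ hw3 2 1 0)))

end Pool.Agent.U299.LPM
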